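import Mathlib

set_option autoImplicit false

namespace Pool.Agent.H81.SymBil

/-- the determinant of two plane vectors -/
def cr (u v : ℝ × ℝ) : ℝ := u.1 * v.2 - u.2 * v.1

theorem cr_add_left (u u' v : ℝ × ℝ) : cr (u + u') v = cr u v + cr u' v := by
  simp only [cr, Prod.fst_add, Prod.snd_add]; ring
theorem cr_add_right (u v v' : ℝ × ℝ) : cr u (v + v') = cr u v + cr u v' := by
  simp only [cr, Prod.fst_add, Prod.snd_add]; ring
theorem cr_sub_left (u u' v : ℝ × ℝ) : cr (u - u') v = cr u v - cr u' v := by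
  simp only [cr, Prod.fst_sub, Prod.snd_sub]; ring
theorem cr_sub_right (u v v' : ℝ × ℝ) : cr u (v - v') = cr u v - cr u v' := by
  simp only [cr, Prod.fst_sub, Prod.snd_sub]; ring
theorem cr_smul_left (a : ℝ) (u v : ℝ × ℝ) : cr (a • u) v = a * cr u v := by
  simp only [cr, Prod.smul_fst, Prod.smul_snd, smul_eq_mul]; ring
theorem cr_smul_right (a : ℝ) (u v : ℝ × ℝ) : cr u (a • v) = a * cr u v := by
  simp only [cr, Prod.smul_fst, Prod.smul_snd, smul_eq_mul]; ring
theorem cr_neg_left (u v : ℝ × ℝ) : cr (-u) v = - cr u v := by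
  simp only [cr, Prod.fst_neg, Prod.snd_neg]; ring
theorem cr_neg_right (u v : ℝ × ℝ) : cr u (-v) = - cr u v := by
  simp only [cr, Prod.fst_neg, Prod.snd_neg]; ring
theorem cr_self (u : ℝ × ℝ) : cr u u = 0 := by simp only [cr]; ring
theorem cr_comm (u v : ℝ × ℝ) : cr u v = - cr v u := by simp only [cr]; ring
theorem cr_zero_left (v : ℝ × ℝ) : cr 0 v = 0 := by simp [cr]
theorem cr_zero_right (v : ℝ × ℝ) : cr v 0 = 0 := by simp [cr]

/-- two vectors which are both annihilated by two independent ones vanish -/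
theorem eq_zero_of_cr (u v w : ℝ × ℝ) (h : cr v w ≠ 0) (h1 : cr u v = 0) (h2 : cr u w = 0) :
    u = 0 := by
  have e1 : u.1 * cr v w = 0 := by
    have : u.1 * cr v w = v.1 * cr u w - w.1 * cr u v := by simp only [cr]; ring
    rw [this, h1, h2]; ring
  have e2 : u.2 * cr v w = 0 := by
    have : u.2 * cr v w = v.2 * cr u w - w.2 * cr u v := by simp only [cr]; ring
    rw [this, h1, h2]; ring
  have f1 : u.1 = 0 := by rcases mul_eq_zero.mp e1 with h0 | h0; exact h0; exact absurd h0 h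
  have f2 : u.2 = 0 := by rcases mul_eq_zero.mp e2 with h0 | h0; exact h0; exact absurd h0 h
  exact Prod.ext f1 f2

/-- if `u ≠ 0` and `cr u v = 0`, `cr u w = 0` then `cr v w = 0` -/
theorem cr_eq_zero_trans (u v w : ℝ × ℝ) (hu : u ≠ 0) (h1 : cr u v = 0) (h2 : cr u w = 0) :
    cr v w = 0 := by
  by_contra h
  exact hu (eq_zero_of_cr u v w h h1 h2)

theorem continuous_cr_left (v : ℝ × ℝ) : Continuous fun p : ℝ × ℝ => cr p v := by
  unfold cr; fun_prop

/-- the polygon -/
abbrev P (S : Finset (ℝ × ℝ)) : Set (ℝ × ℝ) := convexHull ℝ (↑S : Set (ℝ × ℝ))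

theorem convex_cr_le (v : ℝ × ℝ) (r : ℝ) : Convex ℝ {p : ℝ × ℝ | cr p v ≤ r} := by
  intro x hx y hy a b ha hb hab
  simp only [Set.mem_ofPred_eq] at *
  rw [cr_add_left, cr_smul_left, cr_smul_left]
  calc a * cr x v + b * cr y v ≤ a * r + b * r := by gcongr
    _ = r := by rw [← add_mul, hab, one_mul]

theorem cr_le_of_mem_hull {S : Finset (ℝ × ℝ)} {v : ℝ × ℝ} {r : ℝ} (h : ∀ p ∈ S, cr p v ≤ r) :
    ∀ p ∈ P S, cr p v ≤ r := by
  intro p hp
  exact convexHull_min (t := {p : ℝ × ℝ | cr p v ≤ r}) (fun q hq => h q hq) (convex_cr_le v r) hp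

theorem isCompact_P (S : Finset (ℝ × ℝ)) : IsCompact (P S) := S.finite_toSet.isCompact_convexHull (𝕜 := ℝ)

theorem isClosed_P (S : Finset (ℝ × ℝ)) : IsClosed (P S) := (isCompact_P S).isClosed

theorem convex_P (S : Finset (ℝ × ℝ)) : Convex ℝ (P S) := convex_convexHull ℝ _

theorem mem_P {S : Finset (ℝ × ℝ)} {p : ℝ × ℝ} (h : p ∈ S) : p ∈ P S := subset_convexHull ℝ _ h

/-- a point with two independent support functionals is an extreme point -/
theorem extreme_of_two {S : Finset (ℝ × ℝ)} {x v w : ℝ × ℝ} (hx : x ∈ P S)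
    (hv : ∀ p ∈ P S, cr p v ≤ cr x v) (hw : ∀ p ∈ P S, cr p w ≤ cr x w) (h : cr v w ≠ 0) :
    x ∈ Set.extremePoints ℝ (P S) := by
  rw [mem_extremePoints]
  refine ⟨hx, ?_⟩
  intro y hy z hz hxyz
  obtain ⟨a, b, ha, hb, hab, rfl⟩ := hxyz
  have key : ∀ u : ℝ × ℝ, (∀ p ∈ P S, cr p u ≤ cr (a • y + b • z) u) →
      cr (y - z) u = 0 := by
    intro u hu
    have h1 := hu y hy
    have h2 := hu z hz
    rw [cr_add_left, cr_smul_left, cr_smul_left] at h1 h2
    rw [cr_sub_left]
    have hb' : b = 1 - a := by linarith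
    subst hb'
    nlinarith
  have hyz : y - z = 0 := eq_zero_of_cr _ v w h (key v hv) (key w hw)
  have hyz' : y = z := sub_eq_zero.mp hyz
  subst hyz'
  rw [← add_smul, hab, one_smul]
  exact ⟨rfl, rfl⟩

/-- a point of the polygon which maximises a nonzero functional is on the frontier -/
theorem mem_frontier_of_max {S : Finset (ℝ × ℝ)} {x v : ℝ × ℝ} (hx : x ∈ P S) (hv0 : v ≠ 0)
    (hv : ∀ p ∈ P S, cr p v ≤ cr x v) : x ∈ frontier (P S) := by
  rw [(isClosed_P S).frontier_eq]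
  refine ⟨hx, fun hi => ?_⟩
  -- move a little in the direction which increases the functional
  have hcont : Continuous fun t : ℝ => x + t • ((v.2, -v.1) : ℝ × ℝ) := by fun_prop
  have h0 : (fun t : ℝ => x + t • ((v.2, -v.1) : ℝ × ℝ)) 0 ∈ interior (P S) := by simpa using hi
  have hnhds : ∀ᶠ t in nhds (0 : ℝ), x + t • ((v.2, -v.1) : ℝ × ℝ) ∈ interior (P S) :=
    hcont.continuousAt.eventually (isOpen_interior.mem_nhds h0)
  obtain ⟨ε, hε, hball⟩ := Metric.eventually_nhds_iff.mp hnhds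
  have hmem := interior_subset (hball (y := ε / 2) (by
    rw [Real.dist_eq, sub_zero, abs_of_pos (by positivity)]; linarith))
  have h1 := hv _ hmem
  rw [cr_add_left, cr_smul_left] at h1
  have h2 : 0 < cr (v.2, -v.1) v := by
    have : cr (v.2, -v.1) v = v.1 ^ 2 + v.2 ^ 2 := by simp only [cr]; ring
    rw [this]
    rcases not_and_or.mp (fun hh : v.1 = 0 ∧ v.2 = 0 => hv0 (Prod.ext hh.1 hh.2)) with h | h
    · positivity
    · positivity
  nlinarith

end Pool.Agent.H81.SymBil
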