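import Pool.Agent.H81.SymBil.Opt

set_option autoImplicit false

namespace Pool.Agent.H81.SymBil

/-- `v` is the direction of a side of the polygon, oriented counterclockwise -/
def IsSide (S : Finset (ℝ × ℝ)) (v : ℝ × ℝ) : Prop :=
  v ≠ 0 ∧ ∃ a ∈ S, ∃ b ∈ S, a ≠ b ∧ (∀ p ∈ S, cr p v ≤ cr a v) ∧ ∀ p ∈ S, cr p v ≤ cr b v

/-- some supporting line of the polygon contains `x` and `y` -/
def Common (S : Finset (ℝ × ℝ)) (x y : ℝ × ℝ) : Prop :=
  ∃ v : ℝ × ℝ, v ≠ 0 ∧ (∀ p ∈ S, cr p v ≤ cr x v) ∧ ∀ p ∈ S, cr p v ≤ cr y v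

/-- the genericity condition -/
def Generic (S : Finset (ℝ × ℝ)) : Prop :=
  (∀ v : ℝ × ℝ, ¬ (IsSide S v ∧ IsSide S (-v))) ∧
  ∀ x y z : ℝ × ℝ, x ∈ frontier (P S) → y ∈ frontier (P S) → z ∈ frontier (P S) →
    (IsSide S (x - y) ∨ IsSide S (y - x)) → (IsSide S (y - z) ∨ IsSide S (z - y)) →
    (IsSide S (z - x) ∨ IsSide S (x - z)) → ¬ Common S x y → ¬ Common S y z →
    ¬ Common S z x → x ∉ Set.extremePoints ℝ (P S)

/-- a parallelogram -/
def Para (p a b : ℝ × ℝ) : Set (ℝ × ℝ) :=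
  {q | ∃ α β : ℝ, 0 ≤ α ∧ α ≤ 1 ∧ 0 ≤ β ∧ β ≤ 1 ∧ q = p + α • a + β • b}

/-- one step of an orbit -/
def Step (S : Finset (ℝ × ℝ)) (p q r : ℝ × ℝ) : Prop :=
  p ∈ frontier (convexHull ℝ (↑S : Set (ℝ × ℝ))) ∧
  p ∉ Set.extremePoints ℝ (convexHull ℝ (↑S : Set (ℝ × ℝ))) ∧
  r ≠ p ∧
  ∃ a b : ℝ, (a ≠ 0 ∨ b ≠ 0) ∧
    a * (r.1 - p.1) + b * (r.2 - p.2) = 0 ∧
    (∀ p' ∈ convexHull ℝ (↑S : Set (ℝ × ℝ)), a * p'.1 + b * p'.2 ≤ a * q.1 + b * q.2) ∧
    a * p.1 + b * p.2 < a * q.1 + b * q.2 ∧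
    ∃ p' ∈ convexHull ℝ (↑S : Set (ℝ × ℝ)), a * p'.1 + b * p'.2 < a * p.1 + b * p.2

theorem step_of {S : Finset (ℝ × ℝ)} {p q r d : ℝ × ℝ} {τ : ℝ} (hp : p ∈ frontier (P S))
    (hpe : p ∉ Set.extremePoints ℝ (P S)) (hd : d ≠ 0) (hτ : τ ≠ 0) (hrp : r - p = τ • d)
    (hmax : ∀ p' ∈ P S, cr p' d ≤ cr q d) (hlt : cr p d < cr q d)
    (hlow : ∃ p' ∈ P S, cr p' d < cr p d) : Step S p q r := by
  refine ⟨hp, hpe, ?_, d.2, -d.1, ?_, ?_, ?_, ?_, ?_⟩
  · intro h
    rw [h, sub_self] at hrp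
    exact (smul_ne_zero hτ hd) hrp.symm
  · by_contra hcon
    push Not at hcon
    exact hd (Prod.ext (by simpa using hcon.2) (by simpa using hcon.1))
  · have h1 : r.1 - p.1 = τ * d.1 := by
      have := congrArg Prod.fst hrp; simpa using this
    have h2 : r.2 - p.2 = τ * d.2 := by
      have := congrArg Prod.snd hrp; simpa using this
    rw [h1, h2]; ring
  · intro p' hp'
    have := hmax p' hp'
    simp only [cr] at this
    linarith
  · simp only [cr] at hlt
    linarith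
  · obtain ⟨p', hp', h⟩ := hlow
    refine ⟨p', hp', ?_⟩
    simp only [cr] at h
    linarith

theorem orbit_of_steps {S : Finset (ℝ × ℝ)} {z0 z1 z2 z3 z4 z5 : ℝ × ℝ} (h0 : Step S z0 z1 z2)
    (h1 : Step S z1 z2 z3) (h2 : Step S z2 z3 z4) (h3 : Step S z3 z4 z5) (h4 : Step S z4 z5 z0)
    (h5 : Step S z5 z0 z1) :
    ∃ x : ℕ → ℝ × ℝ, (∀ i, x (i + 6) = x i) ∧
      ∀ i : ℕ,
        x i ∈ frontier (convexHull ℝ (↑S : Set (ℝ × ℝ))) ∧
        x i ∉ Set.extremePoints ℝ (convexHull ℝ (↑S : Set (ℝ × ℝ))) ∧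
        x (i + 2) ≠ x i ∧
        ∃ a b : ℝ, (a ≠ 0 ∨ b ≠ 0) ∧
          a * ((x (i + 2)).1 - (x i).1) + b * ((x (i + 2)).2 - (x i).2) = 0 ∧
          (∀ p ∈ convexHull ℝ (↑S : Set (ℝ × ℝ)),
              a * p.1 + b * p.2 ≤ a * (x (i + 1)).1 + b * (x (i + 1)).2) ∧
          a * (x i).1 + b * (x i).2 < a * (x (i + 1)).1 + b * (x (i + 1)).2 ∧
          ∃ p ∈ convexHull ℝ (↑S : Set (ℝ × ℝ)),
              a * p.1 + b * p.2 < a * (x i).1 + b * (x i).2 := by
  set g : ℕ → ℝ × ℝ := fun r => if r = 0 then z0 else if r = 1 then z1 else if r = 2 then z2 else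
    if r = 3 then z3 else if r = 4 then z4 else z5 with hg
  refine ⟨fun i => g (i % 6), fun i => by simp, ?_⟩
  intro i
  have key : Step S (g (i % 6)) (g ((i + 1) % 6)) (g ((i + 2) % 6)) := by
    have hr : i % 6 = 0 ∨ i % 6 = 1 ∨ i % 6 = 2 ∨ i % 6 = 3 ∨ i % 6 = 4 ∨ i % 6 = 5 := by omega
    rcases hr with h | h | h | h | h | h
    · rw [h, show (i + 1) % 6 = 1 by omega, show (i + 2) % 6 = 2 by omega]
      simpa [hg] using h0
    · rw [h, show (i + 1) % 6 = 2 by omega, show (i + 2) % 6 = 3 by omega]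
      simpa [hg] using h1
    · rw [h, show (i + 1) % 6 = 3 by omega, show (i + 2) % 6 = 4 by omega]
      simpa [hg] using h2
    · rw [h, show (i + 1) % 6 = 4 by omega, show (i + 2) % 6 = 5 by omega]
      simpa [hg] using h3
    · rw [h, show (i + 1) % 6 = 5 by omega, show (i + 2) % 6 = 0 by omega]
      simpa [hg] using h4
    · rw [h, show (i + 1) % 6 = 0 by omega, show (i + 2) % 6 = 1 by omega]
      simpa [hg] using h5
  exact key

/-! ### faces -/

theorem hull_face {S : Finset (ℝ × ℝ)} {w a : ℝ × ℝ} {M : ℝ}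
    (h : ∀ s ∈ S, cr s w < M ∨ (s = a ∧ cr s w = M)) :
    ∀ p ∈ P S, cr p w < M ∨ (p = a ∧ cr p w = M) := by
  intro p hp
  refine convexHull_min (t := {p : ℝ × ℝ | cr p w < M ∨ (p = a ∧ cr p w = M)})
    (fun q hq => h q hq) ?_ hp
  intro x hx y hy α β hα hβ hαβ
  simp only [Set.mem_ofPred_eq] at hx hy ⊢
  rw [cr_add_left, cr_smul_left, cr_smul_left]
  rcases hα.eq_or_lt with h0 | hα'
  · have hβ1 : β = 1 := by linarith
    subst hβ1; rw [← h0]; simpa using hy
  rcases hβ.eq_or_lt with h0 | hβ'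
  · have hα1 : α = 1 := by linarith
    subst hα1; rw [← h0]; simpa using hx
  have hM : α * M + β * M = M := by rw [← add_mul, hαβ, one_mul]
  rcases hx with hx | ⟨hx1, hx2⟩
  · left
    have hy' : cr y w ≤ M := by rcases hy with hy | hy; exact hy.le; exact hy.2.le
    nlinarith
  · rcases hy with hy | ⟨hy1, hy2⟩
    · left; nlinarith
    · right
      refine ⟨?_, ?_⟩
      · rw [hx1, hy1, ← add_smul, hαβ, one_smul]
      · rw [hx2, hy2, hM]

/-- either `w` is the direction of a side or the maximiser is unique -/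
theorem side_or_unique {S : Finset (ℝ × ℝ)} (hS : S.Nonempty) {w : ℝ × ℝ} (hw : w ≠ 0) :
    IsSide S w ∨ ∃ a ∈ S, ∀ p ∈ P S, (∀ q ∈ P S, cr q w ≤ cr p w) → p = a := by
  classical
  obtain ⟨a, ha, hamax⟩ := S.exists_max_image (fun p => cr p w) hS
  by_cases h : ∃ b ∈ S, b ≠ a ∧ cr b w = cr a w
  · left
    obtain ⟨b, hb, hba, hbw⟩ := h
    exact ⟨hw, a, ha, b, hb, hba.symm, hamax, fun p hp => by rw [hbw]; exact hamax p hp⟩
  · right
    push Not at h
    refine ⟨a, ha, fun p hp hmax => ?_⟩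
    have hface : ∀ p ∈ P S, cr p w < cr a w ∨ (p = a ∧ cr p w = cr a w) := by
      apply hull_face
      intro s hs
      rcases eq_or_ne s a with rfl | hsa
      · right; exact ⟨rfl, rfl⟩
      · left; exact lt_of_le_of_ne (hamax s hs) (h s hs hsa)
    rcases hface p hp with h1 | h1
    · exact absurd (hmax a (mem_P ha)) (not_le.mpr h1)
    · exact h1.1

theorem isSide_of_not_extreme {S : Finset (ℝ × ℝ)} (hS : S.Nonempty) {w x : ℝ × ℝ} (hw : w ≠ 0)
    (hx : x ∈ P S) (hmax : ∀ q ∈ P S, cr q w ≤ cr x w)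
    (hne : x ∉ Set.extremePoints ℝ (P S)) : IsSide S w := by
  rcases side_or_unique hS hw with h | ⟨a, ha, h⟩
  · exact h
  · exfalso
    apply hne
    have hxa := h x hx hmax
    rw [mem_extremePoints]
    refine ⟨hx, fun y hy z hz hxyz => ?_⟩
    obtain ⟨α, β, hα, hβ, hαβ, hxe⟩ := hxyz
    have e : α * cr y w + β * cr z w = cr x w := by
      rw [← hxe, cr_add_left, cr_smul_left, cr_smul_left]
    have h1 := hmax y hy
    have h2 := hmax z hz
    have hM : α * cr x w + β * cr x w = cr x w := by rw [← add_mul, hαβ, one_mul]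
    have e1 : cr y w = cr x w := by nlinarith
    have e2 : cr z w = cr x w := by nlinarith
    constructor
    · rw [hxa]; exact h y hy (fun q hq => by rw [e1]; exact hmax q hq)
    · rw [hxa]; exact h z hz (fun q hq => by rw [e2]; exact hmax q hq)

theorem isSide_of_two {S : Finset (ℝ × ℝ)} (hS : S.Nonempty) {w x y : ℝ × ℝ} (hw : w ≠ 0)
    (hx : x ∈ P S) (hy : y ∈ P S) (hxy : x ≠ y) (hmx : ∀ q ∈ P S, cr q w ≤ cr x w)
    (hmy : ∀ q ∈ P S, cr q w ≤ cr y w) : IsSide S w := by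
  rcases side_or_unique hS hw with h | ⟨a, ha, h⟩
  · exact h
  · exact absurd ((h x hx hmx).trans (h y hy hmy).symm) hxy

theorem IsSide.smul {S : Finset (ℝ × ℝ)} {v : ℝ × ℝ} {c : ℝ} (hc : 0 < c) (h : IsSide S v) :
    IsSide S (c • v) := by
  obtain ⟨hv, a, ha, b, hb, hab, h1, h2⟩ := h
  refine ⟨smul_ne_zero hc.ne' hv, a, ha, b, hb, hab, fun p hp => ?_, fun p hp => ?_⟩
  · rw [cr_smul_right, cr_smul_right]; exact mul_le_mul_of_nonneg_left (h1 p hp) hc.le
  · rw [cr_smul_right, cr_smul_right]; exact mul_le_mul_of_nonneg_left (h2 p hp) hc.le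

theorem exists_smul_of_cr {u v : ℝ × ℝ} (hv : v ≠ 0) (h : cr u v = 0) : ∃ c : ℝ, u = c • v := by
  rcases not_and_or.mp (fun hh : v.1 = 0 ∧ v.2 = 0 => hv (Prod.ext hh.1 hh.2)) with h1 | h1
  · refine ⟨u.1 / v.1, Prod.ext ?_ ?_⟩
    · simp only [Prod.smul_fst, smul_eq_mul]; field_simp
    · simp only [Prod.smul_snd, smul_eq_mul]
      simp only [cr] at h
      field_simp; linarith
  · refine ⟨u.2 / v.2, Prod.ext ?_ ?_⟩
    · simp only [Prod.smul_fst, smul_eq_mul]
      simp only [cr] at h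
      field_simp; linarith
    · simp only [Prod.smul_snd, smul_eq_mul]; field_simp

/-- two vertices of a reversed triangle are not on a supporting line -/
theorem not_common {S : Finset (ℝ × ℝ)} (hS : S.Nonempty)
    (hgen : ∀ v : ℝ × ℝ, ¬ (IsSide S v ∧ IsSide S (-v))) {x x' x'' d : ℝ × ℝ} {τ : ℝ}
    (hx : x ∈ P S) (hx' : x' ∈ P S) (hx'' : x'' ∈ P S) (hτ : 0 < τ) (hd : IsSide S d)
    (hxx : x - x' = τ • d) (hgt : cr x d < cr x'' d) : ¬ Common S x x' := by
  rintro ⟨v, hv0, h1, h2⟩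
  have h1' := cr_le_of_mem_hull h1
  have h2' := cr_le_of_mem_hull h2
  have e : cr x v = cr x' v := le_antisymm (h2' x hx) (h1' x' hx')
  have e2 : cr d v = 0 := by
    have : cr (x - x') v = 0 := by rw [cr_sub_left, e, sub_self]
    rw [hxx, cr_smul_left] at this
    rcases mul_eq_zero.mp this with h | h
    · exact absurd h hτ.ne'
    · exact h
  obtain ⟨c, hc⟩ := exists_smul_of_cr hd.1 (by rw [cr_comm, e2, neg_zero] : cr v d = 0)
  have hc0 : c ≠ 0 := by
    rintro rfl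
    rw [zero_smul] at hc
    exact hv0 hc
  rcases lt_or_gt_of_ne hc0 with hneg | hpos
  · -- `-d` is the direction of a side
    have hside : IsSide S (-d) := by
      have hne : x ≠ x' := by
        intro h
        rw [h, sub_self] at hxx
        exact (smul_ne_zero hτ.ne' hd.1) hxx.symm
      refine isSide_of_two hS (neg_ne_zero.mpr hd.1) hx hx' hne ?_ ?_
      · intro q hq
        have := h1' q hq
        rw [hc, cr_smul_right, cr_smul_right] at this
        rw [cr_neg_right, cr_neg_right]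
        nlinarith
      · intro q hq
        have := h2' q hq
        rw [hc, cr_smul_right, cr_smul_right] at this
        rw [cr_neg_right, cr_neg_right]
        nlinarith
    exact hgen d ⟨hd, hside⟩
  · have := h1' x'' hx''
    rw [hc, cr_smul_right, cr_smul_right] at this
    nlinarith

theorem low {S : Finset (ℝ × ℝ)} {x x' u u' d : ℝ × ℝ} (hx : x ∈ P S) (hx' : x' ∈ P S)
    (hxe : x ∉ Set.extremePoints ℝ (P S)) (hxe' : x' ∉ Set.extremePoints ℝ (P S))
    (hu : ∀ p ∈ P S, cr p u ≤ cr x u) (hu' : ∀ p ∈ P S, cr p u' ≤ cr x' u')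
    (huu : cr u u' ≠ 0) (hd : d ≠ 0) (hxx : cr x d = cr x' d) : ∃ p ∈ P S, cr p d < cr x d := by
  by_contra hcon
  push Not at hcon
  have k1 : ∀ p ∈ P S, cr p (-d) ≤ cr x (-d) := by
    intro p hp; rw [cr_neg_right, cr_neg_right]; linarith [hcon p hp]
  have k2 : ∀ p ∈ P S, cr p (-d) ≤ cr x' (-d) := by
    intro p hp; rw [cr_neg_right, cr_neg_right]; linarith [hcon p hp]
  have e1 : cr (-d) u = 0 := by
    by_contra h; exact hxe (extreme_of_two hx k1 hu h)
  have e2 : cr (-d) u' = 0 := by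
    by_contra h; exact hxe' (extreme_of_two hx' k2 hu' h)
  exact huu (cr_eq_zero_trans (-d) u u' (neg_ne_zero.mpr hd) e1 e2)

/-! ### the parallelogram -/

theorem exists_ne_value {S : Finset (ℝ × ℝ)} (hint : (interior (P S)).Nonempty) {w : ℝ × ℝ}
    (hw : w ≠ 0) (r : ℝ) : ∃ p ∈ P S, cr p w ≠ r := by
  by_contra hcon
  push Not at hcon
  obtain ⟨c, hc⟩ := hint
  have hmax : ∀ p ∈ P S, cr p w ≤ cr c w := by
    intro p hp; rw [hcon p hp, hcon c (interior_subset hc)]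
  have := mem_frontier_of_max (interior_subset hc) hw hmax
  rw [(isClosed_P S).frontier_eq] at this
  exact this.2 hc

theorem para_lemma {S : Finset (ℝ × ℝ)} (hint : (interior (P S)).Nonempty) {w x x' d : ℝ × ℝ}
    {τ m M : ℝ} (hw : w ≠ 0) (hx : x ∈ P S) (hmax : ∀ p ∈ P S, cr p w ≤ cr x w)
    (hmin : ∀ p ∈ P S, cr x' w ≤ cr p w) (hxx : x - x' = τ • d)
    (hm : ∀ p ∈ P S, m ≤ cr p d) (hM : ∀ p ∈ P S, cr p d ≤ M) :
    ∃ p0 a b : ℝ × ℝ, P S ⊆ Para p0 a b ∧ |cr a b| = |τ| * (M - m) := by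
  have hW : 0 < cr x w - cr x' w := by
    obtain ⟨p, hp, hpr⟩ := exists_ne_value hint hw (cr x w)
    have h1 := hmax p hp
    have h2 := hmin p hp
    have h3 : cr p w < cr x w := lt_of_le_of_ne h1 hpr
    linarith
  have hWe : cr x w - cr x' w = τ * cr d w := by
    rw [← cr_sub_left, hxx, cr_smul_left]
  have hδ : cr d w ≠ 0 := by
    intro h; rw [hWe, h, mul_zero] at hW; exact lt_irrefl _ hW
  have hδ' : cr w d ≠ 0 := by rw [cr_comm]; exact neg_ne_zero.mpr hδ
  have hd : d ≠ 0 := by rintro rfl; exact hδ (cr_zero_left w)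
  have hMm : 0 < M - m := by
    obtain ⟨p, hp, hpr⟩ := exists_ne_value hint hd m
    have h1 := hm p hp
    have h2 := hM p hp
    have h3 : m < cr p d := lt_of_le_of_ne h1 (Ne.symm hpr)
    linarith
  set s : ℝ := (m - cr x' d) / cr w d with hs
  set β : ℝ := (M - m) / cr w d with hβ
  refine ⟨x' + s • w, τ • d, β • w, ?_, ?_⟩
  · intro q hq
    refine ⟨(cr q w - cr x' w) / (cr x w - cr x' w), (cr q d - m) / (M - m), ?_, ?_, ?_, ?_, ?_⟩
    · exact div_nonneg (by linarith [hmin q hq]) hW.le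
    · rw [div_le_one hW]; linarith [hmax q hq]
    · exact div_nonneg (by linarith [hm q hq]) hMm.le
    · rw [div_le_one hMm]; linarith [hM q hq]
    · set α' := (cr q w - cr x' w) / (cr x w - cr x' w) with hα'
      set β' := (cr q d - m) / (M - m) with hβ'
      have z : q - (x' + s • w + α' • (τ • d) + β' • (β • w)) = 0 := by
        apply eq_zero_of_cr _ w d hδ'
        · simp only [cr_sub_left, cr_add_left, cr_smul_left, cr_self, mul_zero, add_zero]
          have : α' * (τ * cr d w) = cr q w - cr x' w := by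
            rw [hα', ← hWe]; field_simp
          rw [this]; ring
        · simp only [cr_sub_left, cr_add_left, cr_smul_left, cr_self, mul_zero, add_zero]
          have e1 : s * cr w d = m - cr x' d := by rw [hs]; field_simp
          have e2 : β' * (β * cr w d) = cr q d - m := by
            rw [hβ, hβ']; field_simp
          rw [e1, e2]; ring
      exact sub_eq_zero.mp z
  · rw [cr_smul_left, cr_smul_right, cr_comm d w]
    have : β * -cr w d = -(M - m) := by rw [hβ]; field_simp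
    rw [this, abs_mul, abs_neg, abs_of_pos hMm]

end Pool.Agent.H81.SymBil
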