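import Pool.Agent.H81.SymBil.Main

set_option autoImplicit false

namespace Pool.Agent.H81.SymBil

/-- the scalar product -/
def dt (u v : ℝ × ℝ) : ℝ := u.1 * v.1 + u.2 * v.2

theorem dt_self_pos {w : ℝ × ℝ} (hw : w ≠ 0) : 0 < dt w w := by
  unfold dt
  rcases not_and_or.mp (fun hh : w.1 = 0 ∧ w.2 = 0 => hw (Prod.ext hh.1 hh.2)) with h | h
  · have : 0 < w.1 * w.1 := mul_self_pos.mpr h
    nlinarith [mul_self_nonneg w.2]
  · have : 0 < w.2 * w.2 := mul_self_pos.mpr h
    nlinarith [mul_self_nonneg w.1]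

/-- the normal cone at a maximiser is spanned by directions of sides -/
theorem normal_cone {S : Finset (ℝ × ℝ)} (hint : (interior (P S)).Nonempty) (hS : S.Nonempty)
    {x w : ℝ × ℝ} (hx : x ∈ P S) (hw : w ≠ 0) (hmax : ∀ p ∈ P S, cr p w ≤ cr x w) :
    ∃ (a b : ℝ) (v v' : ℝ × ℝ), 0 ≤ a ∧ 0 ≤ b ∧ IsSide S v ∧ IsSide S v' ∧
      (∀ p ∈ P S, cr p v ≤ cr x v) ∧ (∀ p ∈ P S, cr p v' ≤ cr x v') ∧ w = a • v + b • v' := by
  classical
  rcases side_or_unique hS hw with h | ⟨a, ha, huniq⟩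
  · exact ⟨1, 0, w, w, zero_le_one, le_refl _, h, h, hmax, hmax, by simp⟩
  have hxa : x = a := huniq x hx hmax
  have hxS : x ∈ S := by rw [hxa]; exact ha
  -- strict inequality at the other points
  have hstrict : ∀ s ∈ S, s ≠ x → 0 < cr x w - cr s w := by
    intro s hs hsx
    have h1 := hmax s (mem_P hs)
    rcases h1.lt_or_eq with h | h
    · linarith
    · exfalso
      apply hsx
      rw [hxa]
      exact huniq s (mem_P hs) (fun q hq => by rw [h]; exact hmax q hq)
  set T := S.erase x with hT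
  have hTne : T.Nonempty := by
    by_contra hcon
    rw [Finset.not_nonempty_iff_eq_empty] at hcon
    obtain ⟨p, hp, hpr⟩ := exists_ne_value hint hw (cr x w)
    have hsub : ∀ s ∈ S, s = x := by
      intro s hs
      by_contra hne
      have : s ∈ T := Finset.mem_erase.mpr ⟨hne, hs⟩
      rw [hcon] at this
      exact absurd this (Finset.notMem_empty s)
    have h1 : cr p w ≤ cr x w := cr_le_of_mem_hull (fun s hs => by rw [hsub s hs]) p hp
    have h2 : cr p (-w) ≤ cr x (-w) := cr_le_of_mem_hull (fun s hs => by rw [hsub s hs]) p hp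
    rw [cr_neg_right, cr_neg_right] at h2
    exact hpr (le_antisymm h1 (by linarith))
  set κ : ℝ × ℝ → ℝ := fun s => cr x w - cr s w with hκ
  set m : ℝ × ℝ → ℝ := fun s => dt (s - x) w / κ s with hm
  obtain ⟨s1, hs1, hs1max⟩ := T.exists_max_image m hTne
  obtain ⟨s2, hs2, hs2min⟩ := T.exists_min_image m hTne
  obtain ⟨hs1x, hs1S⟩ := Finset.mem_erase.mp hs1
  obtain ⟨hs2x, hs2S⟩ := Finset.mem_erase.mp hs2
  have hκ1 : 0 < κ s1 := hstrict s1 hs1S hs1x
  have hκ2 : 0 < κ s2 := hstrict s2 hs2S hs2x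
  have hww := dt_self_pos hw
  have hid : ∀ s s' : ℝ × ℝ, 0 < κ s → 0 < κ s' →
      cr (s - x) (s' - x) * dt w w = κ s * κ s' * (m s - m s') := by
    intro s s' h1 h2
    have e1 : κ s * m s = dt (s - x) w := by rw [hm]; simp only; field_simp
    have e2 : κ s' * m s' = dt (s' - x) w := by rw [hm]; simp only; field_simp
    have : κ s * κ s' * (m s - m s') = κ s' * (κ s * m s) - κ s * (κ s' * m s') := by ring
    rw [this, e1, e2, hκ]
    simp only [cr, dt, Prod.fst_sub, Prod.snd_sub]; ring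
  have k1 : ∀ s ∈ S, cr (s - x) (s1 - x) ≤ 0 := by
    intro s hs
    by_cases hsx : s = x
    · rw [hsx, sub_self, cr_zero_left]
    · have hκs := hstrict s hs hsx
      have h1 := hid s s1 hκs hκ1
      have h2 := hs1max s (Finset.mem_erase.mpr ⟨hsx, hs⟩)
      have h3 : κ s * κ s1 * (m s - m s1) ≤ 0 :=
        mul_nonpos_of_nonneg_of_nonpos (mul_pos hκs hκ1).le (by linarith)
      by_contra hcon
      push Not at hcon
      have := mul_pos hcon hww
      linarith
  have k2 : ∀ s ∈ S, 0 ≤ cr (s - x) (s2 - x) := by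
    intro s hs
    by_cases hsx : s = x
    · rw [hsx, sub_self, cr_zero_left]
    · have hκs := hstrict s hs hsx
      have h1 := hid s s2 hκs hκ2
      have h2 := hs2min s (Finset.mem_erase.mpr ⟨hsx, hs⟩)
      have h3 : 0 ≤ κ s * κ s2 * (m s - m s2) :=
        mul_nonneg (mul_pos hκs hκ2).le (by linarith)
      by_contra hcon
      push Not at hcon
      have := mul_neg_of_neg_of_pos hcon hww
      linarith
  -- `m` is not constant
  have hmne : 0 < m s1 - m s2 := by
    have h0 : m s2 ≤ m s1 := hs1max s2 hs2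
    rcases h0.lt_or_eq with h | h
    · linarith
    · exfalso
      have hz : cr (s2 - x) (s1 - x) = 0 := by
        have := hid s2 s1 hκ2 hκ1
        rw [h, sub_self, mul_zero] at this
        rcases mul_eq_zero.mp this with h' | h'
        · exact h'
        · exact absurd h' hww.ne'
      have hall : ∀ s ∈ S, cr s (s1 - x) = cr x (s1 - x) := by
        intro s hs
        by_cases hsx : s = x
        · rw [hsx]
        · have hκs := hstrict s hs hsx
          have h1 := hs1max s (Finset.mem_erase.mpr ⟨hsx, hs⟩)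
          have h2 := hs2min s (Finset.mem_erase.mpr ⟨hsx, hs⟩)
          have h3 : m s - m s1 = 0 := by linarith
          have h4 := hid s s1 hκs hκ1
          rw [h3, mul_zero] at h4
          rcases mul_eq_zero.mp h4 with h' | h'
          · rw [cr_sub_left] at h'; linarith
          · exact absurd h' hww.ne'
      obtain ⟨p, hp, hpr⟩ := exists_ne_value hint (sub_ne_zero.mpr hs1x) (cr x (s1 - x))
      have h1 : cr p (s1 - x) ≤ cr x (s1 - x) :=
        cr_le_of_mem_hull (fun s hs => (hall s hs).le) p hp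
      have h2 : cr p (-(s1 - x)) ≤ cr x (-(s1 - x)) :=
        cr_le_of_mem_hull (fun s hs => by rw [cr_neg_right, cr_neg_right, hall s hs]) p hp
      rw [cr_neg_right, cr_neg_right] at h2
      exact hpr (le_antisymm h1 (by linarith))
  have hn1 : s1 - x ≠ 0 := sub_ne_zero.mpr hs1x
  have hn2 : s2 - x ≠ 0 := sub_ne_zero.mpr hs2x
  have M1 : ∀ p ∈ S, cr p (s1 - x) ≤ cr x (s1 - x) := by
    intro p hp; have := k1 p hp; rw [cr_sub_left] at this; linarith
  have M2 : ∀ p ∈ S, cr p (-(s2 - x)) ≤ cr x (-(s2 - x)) := by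
    intro p hp; have := k2 p hp; rw [cr_sub_left] at this
    rw [cr_neg_right, cr_neg_right]; linarith
  have I1 : IsSide S (s1 - x) := by
    refine ⟨hn1, x, hxS, s1, hs1S, hs1x.symm, M1, ?_⟩
    intro p hp
    have h1 := M1 p hp
    have h2 : cr s1 (s1 - x) = cr x (s1 - x) := by
      have : cr (s1 - x) (s1 - x) = 0 := cr_self _
      rw [cr_sub_left] at this; linarith
    rw [h2]; exact h1
  have I2 : IsSide S (-(s2 - x)) := by
    refine ⟨neg_ne_zero.mpr hn2, x, hxS, s2, hs2S, hs2x.symm, M2, ?_⟩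
    intro p hp
    have h1 := M2 p hp
    have h2 : cr s2 (-(s2 - x)) = cr x (-(s2 - x)) := by
      have : cr (s2 - x) (s2 - x) = 0 := cr_self _
      rw [cr_sub_left] at this
      rw [cr_neg_right, cr_neg_right]; linarith
    rw [h2]; exact h1
  set c : ℝ := dt w w / (m s1 - m s2) with hc
  have hcpos : 0 < c := div_pos hww hmne
  refine ⟨c / κ s1, c / κ s2, s1 - x, -(s2 - x), by positivity, by positivity, I1, I2,
    cr_le_of_mem_hull M1, cr_le_of_mem_hull M2, ?_⟩
  -- the identity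
  have e1 : m s1 = dt (s1 - x) w / κ s1 := rfl
  have e2 : m s2 = dt (s2 - x) w / κ s2 := rfl
  have f1 : cr (s1 - x) w = - κ s1 := by rw [cr_sub_left, hκ]; simp only; ring
  have f2 : cr (s2 - x) w = - κ s2 := by rw [cr_sub_left, hκ]; simp only; ring
  set r : ℝ × ℝ := (c / κ s1) • (s1 - x) + (c / κ s2) • (-(s2 - x)) with hr
  have g1 : cr r w = 0 := by
    rw [hr, cr_add_left, cr_smul_left, cr_smul_left, cr_neg_left, f1, f2]
    field_simp; ring
  have g2 : dt r w = dt w w := by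
    have : dt r w = c * (m s1 - m s2) := by
      rw [e1, e2, hr]
      simp only [dt, Prod.fst_add, Prod.snd_add, Prod.smul_fst, Prod.smul_snd, smul_eq_mul,
        Prod.fst_neg, Prod.snd_neg]
      ring
    rw [this, hc]
    field_simp
  have g3 : (r.1 - w.1) * dt w w = 0 := by
    have : (r.1 - w.1) * dt w w = w.1 * (dt r w - dt w w) + w.2 * cr r w := by
      simp only [dt, cr]; ring
    rw [this, g1, g2]; ring
  have g4 : (r.2 - w.2) * dt w w = 0 := by
    have : (r.2 - w.2) * dt w w = w.2 * (dt r w - dt w w) - w.1 * cr r w := by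
      simp only [dt, cr]; ring
    rw [this, g1, g2]; ring
  have g5 : r.1 - w.1 = 0 := by
    rcases mul_eq_zero.mp g3 with h | h
    · exact h
    · exact absurd h hww.ne'
  have g6 : r.2 - w.2 = 0 := by
    rcases mul_eq_zero.mp g4 with h | h
    · exact h
    · exact absurd h hww.ne'
  exact Prod.ext (by linarith) (by linarith)

/-- there is a dual solution all of whose components are directions of sides -/
theorem flush_dual {S : Finset (ℝ × ℝ)} (hint : (interior (P S)).Nonempty) (hS : S.Nonempty)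
    {x1 x2 x3 : ℝ × ℝ} (hx1 : x1 ∈ P S) (hx2 : x2 ∈ P S) (hx3 : x3 ∈ P S)
    (hpos : ∀ w1 w2 w3 : ℝ × ℝ, w1 + w2 + w3 = 0 → (w1 ≠ 0 ∨ w2 ≠ 0 ∨ w3 ≠ 0) →
      (∀ p ∈ P S, cr p w1 ≤ cr x1 w1) → (∀ p ∈ P S, cr p w2 ≤ cr x2 w2) →
      (∀ p ∈ P S, cr p w3 ≤ cr x3 w3) → 0 < cr w1 w2)
    {w1 w2 w3 : ℝ × ℝ} (hwsum : w1 + w2 + w3 = 0) (hwne : w1 ≠ 0 ∨ w2 ≠ 0 ∨ w3 ≠ 0)
    (W1 : ∀ p ∈ P S, cr p w1 ≤ cr x1 w1) (W2 : ∀ p ∈ P S, cr p w2 ≤ cr x2 w2)
    (W3 : ∀ p ∈ P S, cr p w3 ≤ cr x3 w3) :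
    ∃ u1 u2 u3 : ℝ × ℝ, u1 + u2 + u3 = 0 ∧ 0 < cr u1 u2 ∧ IsSide S u1 ∧ IsSide S u2 ∧
      IsSide S u3 ∧ (∀ p ∈ P S, cr p u1 ≤ cr x1 u1) ∧ (∀ p ∈ P S, cr p u2 ≤ cr x2 u2) ∧
      (∀ p ∈ P S, cr p u3 ≤ cr x3 u3) := by
  classical
  have hB := hpos w1 w2 w3 hwsum hwne W1 W2 W3
  have hw3e : w3 = -w1 - w2 := by
    have : w3 = w1 + w2 + w3 - w1 - w2 := by abel
    rw [this, hwsum]; abel
  have B23 : cr w2 w3 = cr w1 w2 := by
    rw [hw3e]; simp only [cr, Prod.fst_sub, Prod.snd_sub, Prod.fst_neg, Prod.snd_neg]; ring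
  have nw1 : w1 ≠ 0 := by rintro rfl; rw [cr_zero_left] at hB; exact lt_irrefl _ hB
  have nw2 : w2 ≠ 0 := by rintro rfl; rw [cr_zero_right] at hB; exact lt_irrefl _ hB
  have nw3 : w3 ≠ 0 := by
    intro h; rw [h, cr_zero_right] at B23; rw [← B23] at hB; exact lt_irrefl _ hB
  obtain ⟨a1, b1, v1, v1', ha1, hb1, s1, s1', m1, m1', e1⟩ := normal_cone hint hS hx1 nw1 W1
  obtain ⟨a2, b2, v2, v2', ha2, hb2, s2, s2', m2, m2', e2⟩ := normal_cone hint hS hx2 nw2 W2
  obtain ⟨a3, b3, v3, v3', ha3, hb3, s3, s3', m3, m3', e3⟩ := normal_cone hint hS hx3 nw3 W3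
  set X : Fin 3 → ℝ × ℝ := ![x1, x2, x3] with hX
  set V : Set (ℝ × ℝ) := {v | ∃ k : Fin 3, IsSide S v ∧ ∀ p ∈ P S, cr p v ≤ cr (X k) v} with hV
  have h0V : (0 : ℝ × ℝ) ∈ convexHull ℝ V := by
    have hw : ∀ i ∈ (Finset.univ : Finset (Fin 6)), 0 ≤ (![a1, b1, a2, b2, a3, b3] : Fin 6 → ℝ) i := by
      intro i _
      fin_cases i <;> simpa
    have hz : ∀ i ∈ (Finset.univ : Finset (Fin 6)),
        (![v1, v1', v2, v2', v3, v3'] : Fin 6 → ℝ × ℝ) i ∈ V := by
      intro i _
      fin_cases i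
      · exact ⟨0, s1, m1⟩
      · exact ⟨0, s1', m1'⟩
      · exact ⟨1, s2, m2⟩
      · exact ⟨1, s2', m2'⟩
      · exact ⟨2, s3, m3⟩
      · exact ⟨2, s3', m3'⟩
    have hws : 0 < ∑ i ∈ (Finset.univ : Finset (Fin 6)), (![a1, b1, a2, b2, a3, b3] : Fin 6 → ℝ) i := by
      have hs : ∑ i ∈ (Finset.univ : Finset (Fin 6)), (![a1, b1, a2, b2, a3, b3] : Fin 6 → ℝ) i
          = a1 + b1 + a2 + b2 + a3 + b3 := by
        rw [Fin.sum_univ_six]; simp
      rw [hs]
      by_contra hcon
      push Not at hcon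
      have z1 : a1 = 0 := by linarith
      have z2 : b1 = 0 := by linarith
      rw [z1, z2, zero_smul, zero_smul, add_zero] at e1
      exact nw1 e1
    have hc := Finset.centerMass_mem_convexHull (R := ℝ) (Finset.univ : Finset (Fin 6)) hw hws hz
    have hc0 : (Finset.univ : Finset (Fin 6)).centerMass (![a1, b1, a2, b2, a3, b3] : Fin 6 → ℝ)
        (![v1, v1', v2, v2', v3, v3'] : Fin 6 → ℝ × ℝ) = 0 := by
      rw [Finset.centerMass]
      have : ∑ i ∈ (Finset.univ : Finset (Fin 6)), (![a1, b1, a2, b2, a3, b3] : Fin 6 → ℝ) i •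
          (![v1, v1', v2, v2', v3, v3'] : Fin 6 → ℝ × ℝ) i = w1 + w2 + w3 := by
        rw [Fin.sum_univ_six, e1, e2, e3]; simp; abel
      rw [this, hwsum, smul_zero]
    rw [hc0] at hc
    exact hc
  rw [convexHull_eq_union] at h0V
  simp only [Set.mem_iUnion] at h0V
  obtain ⟨t, htV, hai, ht0⟩ := h0V
  rw [Finset.mem_convexHull'] at ht0
  obtain ⟨ω, hω0, hω1, hωs⟩ := ht0
  have hcard : t.card ≤ 3 := by
    have h1 := hai.card_le_finrank_succ
    have h2 : Module.finrank ℝ (vectorSpan ℝ (Set.range (Subtype.val : t → ℝ × ℝ))) ≤ 2 := by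
      have := Submodule.finrank_le (vectorSpan ℝ (Set.range (Subtype.val : t → ℝ × ℝ)))
      have h3 : Module.finrank ℝ (ℝ × ℝ) = 2 := by simp
      rw [h3] at this
      exact this
    have h4 : Fintype.card t = t.card := by simp
    rw [h4] at h1
    exact h1.trans (by omega)
  -- the fibres
  have hch : ∀ y : ℝ × ℝ, ∃ k : Fin 3, y ∈ t → IsSide S y ∧ ∀ p ∈ P S, cr p y ≤ cr (X k) y := by
    intro y
    by_cases hy : y ∈ t
    · obtain ⟨k, hk⟩ := htV hy
      exact ⟨k, fun _ => hk⟩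
    · exact ⟨0, fun h => absurd h hy⟩
  choose κ hκ using hch
  set u : Fin 3 → ℝ × ℝ := fun k => ∑ y ∈ t with κ y = k, ω y • y with hu
  have husum : u 0 + u 1 + u 2 = 0 := by
    have : ∑ k : Fin 3, u k = ∑ y ∈ t, ω y • y := Finset.sum_fiberwise t κ (fun y => ω y • y)
    rw [Fin.sum_univ_three, hωs] at this
    exact this
  have hcrs : ∀ (p : ℝ × ℝ) (s : Finset (ℝ × ℝ)), cr p (∑ y ∈ s, ω y • y) =
      ∑ y ∈ s, ω y * cr p y := by
    intro p s
    induction s using Finset.induction_on with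
    | empty => simp [cr_zero_right]
    | insert a s ha ih => rw [Finset.sum_insert ha, Finset.sum_insert ha, cr_add_right, ih, cr_smul_right]
  have humax : ∀ k : Fin 3, ∀ p ∈ P S, cr p (u k) ≤ cr (X k) (u k) := by
    intro k p hp
    rw [hu]
    simp only
    rw [hcrs, hcrs]
    apply Finset.sum_le_sum
    intro y hy
    obtain ⟨hyt, hyk⟩ := Finset.mem_filter.mp hy
    have := (hκ y hyt).2 p hp
    rw [hyk] at this
    exact mul_le_mul_of_nonneg_left this (hω0 y hyt)
  have hune : u 0 ≠ 0 ∨ u 1 ≠ 0 ∨ u 2 ≠ 0 := by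
    by_contra hcon
    push Not at hcon
    obtain ⟨z0, z1, z2⟩ := hcon
    obtain ⟨c, hc⟩ := hint
    have hzall : ∀ k : Fin 3, u k = 0 := by
      intro k; fin_cases k
      · exact z0
      · exact z1
      · exact z2
    have hsum0 : ∑ y ∈ t, ω y * (cr (X (κ y)) y - cr c y) = 0 := by
      have h1 : ∑ k : Fin 3, ∑ y ∈ t with κ y = k, ω y * (cr (X (κ y)) y - cr c y) =
          ∑ y ∈ t, ω y * (cr (X (κ y)) y - cr c y) := Finset.sum_fiberwise t κ _
      rw [← h1]
      apply Finset.sum_eq_zero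
      intro k _
      have h2 : ∑ y ∈ t with κ y = k, ω y * (cr (X (κ y)) y - cr c y) =
          cr (X k) (u k) - cr c (u k) := by
        rw [hu]
        simp only
        rw [hcrs, hcrs, ← Finset.sum_sub_distrib]
        apply Finset.sum_congr rfl
        intro y hy
        rw [(Finset.mem_filter.mp hy).2]; ring
      rw [h2, hzall k, cr_zero_right, cr_zero_right, sub_zero]
    have hnn : ∀ y ∈ t, 0 ≤ ω y * (cr (X (κ y)) y - cr c y) := by
      intro y hy
      exact mul_nonneg (hω0 y hy) (by linarith [(hκ y hy).2 c (interior_subset hc)])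
    have hall := (Finset.sum_eq_zero_iff_of_nonneg hnn).mp hsum0
    have hωz : ∀ y ∈ t, ω y = 0 := by
      intro y hy
      rcases mul_eq_zero.mp (hall y hy) with h | h
      · exact h
      · exfalso
        have hmx : ∀ p ∈ P S, cr p y ≤ cr c y := by
          intro p hp
          linarith [(hκ y hy).2 p hp]
        have := mem_frontier_of_max (interior_subset hc) (hκ y hy).1.1 hmx
        rw [(isClosed_P S).frontier_eq] at this
        exact this.2 hc
    rw [Finset.sum_eq_zero hωz] at hω1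
    exact zero_ne_one hω1
  have hBu := hpos (u 0) (u 1) (u 2) husum hune (humax 0) (humax 1) (humax 2)
  have hu2e : u 2 = -u 0 - u 1 := by
    have : u 2 = u 0 + u 1 + u 2 - u 0 - u 1 := by abel
    rw [this, husum]; abel
  have C12 : cr (u 1) (u 2) = cr (u 0) (u 1) := by
    rw [hu2e]; simp only [cr, Prod.fst_sub, Prod.snd_sub, Prod.fst_neg, Prod.snd_neg]; ring
  have nz : ∀ k : Fin 3, u k ≠ 0 := by
    intro k; fin_cases k
    · intro h
      have h' : u 0 = 0 := h
      rw [h', cr_zero_left] at hBu; exact lt_irrefl _ hBu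
    · intro h
      have h' : u 1 = 0 := h
      rw [h', cr_zero_right] at hBu; exact lt_irrefl _ hBu
    · intro h
      have h' : u 2 = 0 := h
      rw [h', cr_zero_right] at C12; rw [← C12] at hBu; exact lt_irrefl _ hBu
  have hne : ∀ k : Fin 3, 1 ≤ (t.filter fun y => κ y = k).card := by
    intro k
    rw [Nat.one_le_iff_ne_zero]
    intro h
    rw [Finset.card_eq_zero] at h
    apply nz k
    rw [hu]
    simp only
    rw [h, Finset.sum_empty]
  have hcs : ∑ k : Fin 3, (t.filter fun y => κ y = k).card = t.card :=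
    (Finset.card_eq_sum_card_fiberwise (f := κ) (s := t) (t := Finset.univ) (by
      intro y _; simp)).symm
  rw [Fin.sum_univ_three] at hcs
  have hone : ∀ k : Fin 3, (t.filter fun y => κ y = k).card = 1 := by
    have h0 := hne 0
    have h1 := hne 1
    have h2 := hne 2
    intro k; fin_cases k
    · show (t.filter fun y => κ y = 0).card = 1
      omega
    · show (t.filter fun y => κ y = 1).card = 1
      omega
    · show (t.filter fun y => κ y = 2).card = 1
      omega
  have hside : ∀ k : Fin 3, IsSide S (u k) := by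
    intro k
    obtain ⟨y, hy⟩ := Finset.card_eq_one.mp (hone k)
    have hyt : y ∈ t := by
      have : y ∈ t.filter fun y => κ y = k := by rw [hy]; exact Finset.mem_singleton_self y
      exact (Finset.mem_filter.mp this).1
    have huk : u k = ω y • y := by
      rw [hu]; simp only; rw [hy, Finset.sum_singleton]
    rw [huk]
    have hωy : 0 < ω y := by
      rcases (hω0 y hyt).lt_or_eq with h | h
      · exact h
      · exfalso; apply nz k; rw [huk, ← h, zero_smul]
    exact (hκ y hyt).1.smul hωy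
  exact ⟨u 0, u 1, u 2, husum, hBu, hside 0, hside 1, hside 2, humax 0, humax 1, humax 2⟩

end Pool.Agent.H81.SymBil
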