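import Pool.Agent.H81.SymBil.Dual

set_option autoImplicit false

namespace Pool.Agent.H81.SymBil

/-- a flush dual triple has a value which is not larger -/
theorem value_le {S : Finset (ℝ × ℝ)} {d1 d2 d3 x1 x2 x3 u1 u2 u3 : ℝ × ℝ} {σ h1 h2 h3 g' : ℝ}
    (hσ : 0 < σ) (hdsum : d1 + d2 + d3 = 0) (husum : u1 + u2 + u3 = 0)
    (hins : Ins S d1 d2 d3 σ x1 x2 x3) (H1 : IsMax S d1 h1) (H2 : IsMax S d2 h2)
    (H3 : IsMax S d3 h3) (U1 : ∀ p ∈ P S, cr p u1 ≤ cr x1 u1)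
    (U2 : ∀ p ∈ P S, cr p u2 ≤ cr x2 u2) (U3 : ∀ p ∈ P S, cr p u3 ≤ cr x3 u3)
    (hval : Val S u1 u2 u3 g') : g' ≤ σ * (h1 + h2 + h3) := by
  obtain ⟨σ', y1, y2, y3, k1, k2, k3, hσ', hins', -, K1, K2, K3, rfl⟩ := hval
  have ek1 : k1 ≤ cr x1 u1 := by obtain ⟨p, hp, he⟩ := K1.2; rw [← he]; exact U1 p hp
  have ek2 : k2 ≤ cr x2 u2 := by obtain ⟨p, hp, he⟩ := K2.2; rw [← he]; exact U2 p hp
  have ek3 : k3 ≤ cr x3 u3 := by obtain ⟨p, hp, he⟩ := K3.2; rw [← he]; exact U3 p hp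
  have pr1 := pairing husum hins
  have pr2 := pairing hdsum hins'
  have v1 := H1.1 y1 hins'.1
  have v2 := H2.1 y2 hins'.2.1
  have v3 := H3.1 y3 hins'.2.2.1
  calc σ' * (k1 + k2 + k3) ≤ σ' * (σ * (cr d1 u2 + cr u1 d2)) := by
        apply mul_le_mul_of_nonneg_left _ hσ'.le
        rw [← pr1]; linarith
    _ = σ * (σ' * (cr u1 d2 + cr d1 u2)) := by ring
    _ ≤ σ * (h1 + h2 + h3) := by
        apply mul_le_mul_of_nonneg_left _ hσ.le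
        rw [← pr2]; linarith

/-- the rescaled triple -/
def dd (e : (ℝ × ℝ) × (ℝ × ℝ) × (ℝ × ℝ)) : (ℝ × ℝ) × (ℝ × ℝ) × (ℝ × ℝ) :=
  (cr e.2.1 e.2.2 • e.1, cr e.2.2 e.1 • e.2.1, cr e.1 e.2.1 • e.2.2)

theorem dd_sum (e : (ℝ × ℝ) × (ℝ × ℝ) × (ℝ × ℝ)) : (dd e).1 + (dd e).2.1 + (dd e).2.2 = 0 := by
  ext
  · simp only [dd, cr, Prod.fst_add, Prod.smul_fst, smul_eq_mul, Prod.fst_zero]; ring
  · simp only [dd, cr, Prod.snd_add, Prod.smul_snd, smul_eq_mul, Prod.snd_zero]; ring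

theorem IsSide.exists_diff {S : Finset (ℝ × ℝ)} [DecidableEq (ℝ × ℝ)] {v : ℝ × ℝ}
    (h : IsSide S v) :
    ∃ c : ℝ, 0 < c ∧ ∃ e ∈ (S ×ˢ S).image (fun q : (ℝ × ℝ) × (ℝ × ℝ) => q.2 - q.1), v = c • e := by
  obtain ⟨hv, a, ha, b, hb, hab, h1, h2⟩ := h
  have e : cr a v = cr b v := le_antisymm (h2 a ha) (h1 b hb)
  have hne : b - a ≠ 0 := sub_ne_zero.mpr (Ne.symm hab)
  have e2 : cr (b - a) v = 0 := by rw [cr_sub_left, e, sub_self]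
  obtain ⟨c, hc⟩ := exists_smul_of_cr hne (by rw [cr_comm, e2, neg_zero] : cr v (b - a) = 0)
  rcases lt_trichotomy c 0 with hneg | h0 | hpos
  · refine ⟨-c, by linarith, a - b, ?_, ?_⟩
    · exact Finset.mem_image.mpr ⟨(b, a), Finset.mem_product.mpr ⟨hb, ha⟩, rfl⟩
    · rw [hc, neg_smul, ← smul_neg, neg_sub]
  · rw [h0, zero_smul] at hc; exact absurd hc hv
  · refine ⟨c, hpos, b - a, ?_, hc⟩
    exact Finset.mem_image.mpr ⟨(a, b), Finset.mem_product.mpr ⟨ha, hb⟩, rfl⟩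

theorem exists_dd {S : Finset (ℝ × ℝ)} [DecidableEq (ℝ × ℝ)] {w1 w2 w3 : ℝ × ℝ}
    (hsum : w1 + w2 + w3 = 0) (hA : 0 < cr w1 w2) (h1 : IsSide S w1) (h2 : IsSide S w2)
    (h3 : IsSide S w3) : ∃ l : ℝ, 0 < l ∧
      ∃ e ∈ (((S ×ˢ S).image (fun q : (ℝ × ℝ) × (ℝ × ℝ) => q.2 - q.1)) ×ˢ
        ((S ×ˢ S).image (fun q : (ℝ × ℝ) × (ℝ × ℝ) => q.2 - q.1)) ×ˢ
        ((S ×ˢ S).image (fun q : (ℝ × ℝ) × (ℝ × ℝ) => q.2 - q.1))),
        dd e = (l • w1, l • w2, l • w3) := by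
  obtain ⟨c1, hc1, e1, he1, hw1⟩ := h1.exists_diff
  obtain ⟨c2, hc2, e2, he2, hw2⟩ := h2.exists_diff
  obtain ⟨c3, hc3, e3, he3, hw3⟩ := h3.exists_diff
  have hs : c1 • e1 + c2 • e2 + c3 • e3 = 0 := by rw [← hw1, ← hw2, ← hw3]; exact hsum
  have hE : 0 < cr e1 e2 := by
    rw [hw1, hw2, cr_smul_left, cr_smul_right] at hA
    have : 0 < (c1 * c2) * cr e1 e2 := by linarith
    exact (pos_iff_pos_of_mul_pos this).mp (mul_pos hc1 hc2)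
  have r1 : c2 * cr e1 e2 = c3 * cr e3 e1 := by
    have := congrArg (fun z => cr e1 z) hs
    simp only [cr_add_right, cr_smul_right, cr_self, cr_zero_right] at this
    rw [cr_comm e3 e1]; linarith
  have r2 : c1 * cr e1 e2 = c3 * cr e2 e3 := by
    have := congrArg (fun z => cr e2 z) hs
    simp only [cr_add_right, cr_smul_right, cr_self, cr_zero_right] at this
    rw [cr_comm e2 e1] at this; linarith
  refine ⟨cr e1 e2 / c3, by positivity, (e1, (e2, e3)),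
    Finset.mem_product.mpr ⟨he1, Finset.mem_product.mpr ⟨he2, he3⟩⟩, ?_⟩
  have g1 : cr e2 e3 = cr e1 e2 / c3 * c1 := by field_simp; linarith
  have g2 : cr e3 e1 = cr e1 e2 / c3 * c2 := by field_simp; linarith
  have g3 : cr e1 e2 = cr e1 e2 / c3 * c3 := by field_simp
  simp only [dd]
  rw [hw1, hw2, hw3, smul_smul, smul_smul, smul_smul, ← g1, ← g2, ← g3]

theorem exists_orbit {S : Finset (ℝ × ℝ)} (hint : (interior (P S)).Nonempty) (hgen : Generic S)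
    {t1 t2 t3 : ℝ × ℝ} (hT : 0 < cr (t2 - t1) (t3 - t1))
    (hsub : P S ⊆ convexHull ℝ ({t1, t2, t3} : Set (ℝ × ℝ)))
    (hpar : ∀ (s : ℝ) (c p a b : ℝ × ℝ), c - s • t1 ∈ P S → c - s • t2 ∈ P S →
      c - s • t3 ∈ P S → P S ⊆ Para p a b → s * cr (t2 - t1) (t3 - t1) < |cr a b|) :
    ∃ x1 x2 x3 y1 y2 y3 : ℝ × ℝ,
      Step S x1 y3 x2 ∧ Step S y3 x2 y1 ∧ Step S x2 y1 x3 ∧ Step S y1 x3 y2 ∧ Step S x3 y2 x1 ∧
      Step S y2 x1 y3 := by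
  classical
  have hS : S.Nonempty := by
    obtain ⟨c, hc⟩ := hint
    have := interior_subset hc
    rw [← Finset.coe_nonempty, ← convexHull_nonempty_iff (𝕜 := ℝ)]
    exact ⟨c, this⟩
  set d1 : ℝ × ℝ := t3 - t2 with hd1
  set d2 : ℝ × ℝ := t1 - t3 with hd2
  set d3 : ℝ × ℝ := t2 - t1 with hd3
  have hdsum : d1 + d2 + d3 = 0 := by rw [hd1, hd2, hd3]; abel
  have hAe : cr d1 d2 = cr (t2 - t1) (t3 - t1) := by
    rw [hd1, hd2]; simp only [cr, Prod.fst_sub, Prod.snd_sub]; ring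
  have hA : 0 < cr d1 d2 := by rw [hAe]; exact hT
  have A23 : cr d2 d3 = cr d1 d2 := by
    rw [hd1, hd2, hd3]; simp only [cr, Prod.fst_sub, Prod.snd_sub]; ring
  have nd3 : d3 ≠ 0 := by
    intro h; rw [h, cr_zero_right] at A23; rw [← A23] at hA; exact lt_irrefl _ hA
  obtain ⟨σ, x1, x2, x3, hσ, hins, hmax⟩ := exists_max hint hdsum nd3
  obtain ⟨h1, H1⟩ := exists_isMax hS d1
  obtain ⟨h2, H2⟩ := exists_isMax hS d2
  obtain ⟨h3, H3⟩ := exists_isMax hS d3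
  -- the support values are at most those of the triangle
  have hTle : ∀ (v : ℝ × ℝ) (r : ℝ), cr t1 v ≤ r → cr t2 v ≤ r → cr t3 v ≤ r →
      ∀ p ∈ P S, cr p v ≤ r := by
    intro v r k1 k2 k3 p hp
    refine convexHull_min (t := {p : ℝ × ℝ | cr p v ≤ r}) ?_ (convex_cr_le v r) (hsub hp)
    rintro q (rfl | rfl | rfl)
    · exact k1
    · exact k2
    · exact k3
  have hT' : 0 < t2.1 * t3.2 - t2.2 * t3.1 + (t3.1 * t1.2 - t3.2 * t1.1) +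
      (t1.1 * t2.2 - t1.2 * t2.1) := by
    have : cr (t2 - t1) (t3 - t1) = t2.1 * t3.2 - t2.2 * t3.1 + (t3.1 * t1.2 - t3.2 * t1.1) +
      (t1.1 * t2.2 - t1.2 * t2.1) := by simp only [cr, Prod.fst_sub, Prod.snd_sub]; ring
    rw [← this]; exact hT
  have l1 : h1 ≤ cr t2 t3 := by
    obtain ⟨p, hp, he⟩ := H1.2
    rw [← he]
    refine hTle d1 _ ?_ ?_ ?_ p hp <;>
      · rw [hd1]; simp only [cr, Prod.fst_sub, Prod.snd_sub]; nlinarith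
  have l2 : h2 ≤ cr t3 t1 := by
    obtain ⟨p, hp, he⟩ := H2.2
    rw [← he]
    refine hTle d2 _ ?_ ?_ ?_ p hp <;>
      · rw [hd2]; simp only [cr, Prod.fst_sub, Prod.snd_sub]; nlinarith
  have l3 : h3 ≤ cr t1 t2 := by
    obtain ⟨p, hp, he⟩ := H3.2
    rw [← he]
    refine hTle d3 _ ?_ ?_ ?_ p hp <;>
      · rw [hd3]; simp only [cr, Prod.fst_sub, Prod.snd_sub]; nlinarith
  have hsumle : h1 + h2 + h3 ≤ cr (t2 - t1) (t3 - t1) := by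
    have : cr (t2 - t1) (t3 - t1) = cr t2 t3 + cr t3 t1 + cr t1 t2 := by
      simp only [cr, Prod.fst_sub, Prod.snd_sub]; ring
    rw [this]; linarith
  -- the parallelograms
  have hpar' : ∀ p a b : ℝ × ℝ, P S ⊆ Para p a b → σ * (h1 + h2 + h3) < |cr a b| := by
    intro p a b hP
    have hb : σ * (h1 + h2 + h3) ≤ σ * cr (t2 - t1) (t3 - t1) :=
      mul_le_mul_of_nonneg_left hsumle hσ.le
    refine lt_of_le_of_lt hb (hpar σ (x1 + σ • t1) p a b ?_ ?_ ?_ hP)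
    · have : x1 + σ • t1 - σ • t1 = x1 := by abel
      rw [this]; exact hins.1
    · have : x1 + σ • t1 - σ • t2 = x2 := by
        have e : x2 = (x2 - x1) + x1 := by abel
        rw [e, hins.2.2.2.2.2, hd3, smul_sub]; abel
      rw [this]; exact hins.2.1
    · have : x1 + σ • t1 - σ • t3 = x3 := by
        have e : x3 = x1 - (x1 - x3) := by abel
        rw [e, hins.2.2.2.2.1, hd2, smul_sub]; abel
      rw [this]; exact hins.2.2.1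
  obtain ⟨w1, w2, w3, hwsum, hwne, W1, W2, W3⟩ := exists_dual hint hdsum hins hmax
  obtain ⟨u1, u2, u3, husum, hBu, su1, su2, su3, U1, U2, U3⟩ :=
    flush_dual hint hS hins.1 hins.2.1 hins.2.2.1
      (fun w1 w2 w3 a b c d e => dual_pos hint hdsum hA hσ hins H1 H2 H3 hpar' a b c d e)
      hwsum hwne W1 W2 W3
  -- the finite set of triples
  set D : Finset (ℝ × ℝ) := (S ×ˢ S).image (fun q : (ℝ × ℝ) × (ℝ × ℝ) => q.2 - q.1) with hD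
  set 𝒯 : Finset ((ℝ × ℝ) × (ℝ × ℝ) × (ℝ × ℝ)) := ((D ×ˢ D ×ˢ D).image dd).filter
    (fun τ => IsSide S τ.1 ∧ IsSide S τ.2.1 ∧ IsSide S τ.2.2 ∧ 0 < cr τ.1 τ.2.1) with h𝒯
  have h𝒯mem : ∀ v1 v2 v3 : ℝ × ℝ, v1 + v2 + v3 = 0 → 0 < cr v1 v2 → IsSide S v1 → IsSide S v2 →
      IsSide S v3 → ∃ l : ℝ, 0 < l ∧ (l • v1, l • v2, l • v3) ∈ 𝒯 := by
    intro v1 v2 v3 hs hp q1 q2 q3
    obtain ⟨l, hl, e, he, hde⟩ := exists_dd hs hp q1 q2 q3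
    refine ⟨l, hl, ?_⟩
    rw [h𝒯, Finset.mem_filter]
    refine ⟨Finset.mem_image.mpr ⟨e, he, hde⟩, q1.smul hl, q2.smul hl, q3.smul hl, ?_⟩
    simp only [cr_smul_left, cr_smul_right]
    positivity
  have h𝒯sum : ∀ τ ∈ 𝒯, τ.1 + τ.2.1 + τ.2.2 = 0 := by
    intro τ hτ
    rw [h𝒯, Finset.mem_filter] at hτ
    obtain ⟨e, -, rfl⟩ := Finset.mem_image.mp hτ.1
    exact dd_sum e
  set G : (ℝ × ℝ) × (ℝ × ℝ) × (ℝ × ℝ) → ℝ := fun τ =>
    Classical.epsilon (fun g => Val S τ.1 τ.2.1 τ.2.2 g) with hG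
  have hGval : ∀ τ ∈ 𝒯, Val S τ.1 τ.2.1 τ.2.2 (G τ) := by
    intro τ hτ
    have h3 := (Finset.mem_filter.mp (h𝒯 ▸ hτ)).2.2.2.1
    exact Classical.epsilon_spec (exists_val hint hS (h𝒯sum τ hτ) h3.1)
  obtain ⟨l0, hl0, hmem0⟩ := h𝒯mem u1 u2 u3 husum hBu su1 su2 su3
  obtain ⟨τ, hτ, hτmin⟩ := 𝒯.exists_min_image G ⟨_, hmem0⟩
  have hτ' := (Finset.mem_filter.mp (h𝒯 ▸ hτ)).2
  refine core hint hS hgen (h𝒯sum τ hτ) hτ'.2.2.2 hτ'.1 hτ'.2.1 hτ'.2.2.1 (hGval τ hτ) ?_ ?_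
  · intro p a b hP
    have e1 := hτmin _ hmem0
    have e2 := hGval _ hmem0
    simp only at e2
    have husum' : l0 • u1 + l0 • u2 + l0 • u3 = 0 := by
      rw [← smul_add, ← smul_add, husum, smul_zero]
    have sc : ∀ (u x : ℝ × ℝ), (∀ p ∈ P S, cr p u ≤ cr x u) →
        ∀ p ∈ P S, cr p (l0 • u) ≤ cr x (l0 • u) := by
      intro u x h p hp
      rw [cr_smul_right, cr_smul_right]; exact mul_le_mul_of_nonneg_left (h p hp) hl0.le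
    have e3 := value_le hσ hdsum husum' hins H1 H2 H3 (sc _ _ U1) (sc _ _ U2) (sc _ _ U3) e2
    exact lt_of_le_of_lt (e1.trans e3) (hpar' p a b hP)
  · intro v1 v2 v3 hs hp q1 q2 q3
    obtain ⟨l, hl, hmem⟩ := h𝒯mem v1 v2 v3 hs hp q1 q2 q3
    exact ⟨l, G _, hl, hGval _ hmem, hτmin _ hmem⟩

end Pool.Agent.H81.SymBil
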