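import Pool.Agent.H81.SymBil.Core

set_option autoImplicit false

namespace Pool.Agent.H81.SymBil

/-- `h` is the maximum of `cr · u` on the polygon -/
def IsMax (S : Finset (ℝ × ℝ)) (u : ℝ × ℝ) (h : ℝ) : Prop :=
  (∀ p ∈ P S, cr p u ≤ h) ∧ ∃ p ∈ P S, cr p u = h

/-- the functional which is minimised -/
def Val (S : Finset (ℝ × ℝ)) (u1 u2 u3 : ℝ × ℝ) (g : ℝ) : Prop :=
  ∃ (σ : ℝ) (x1 x2 x3 : ℝ × ℝ) (h1 h2 h3 : ℝ), 0 < σ ∧ Ins S u1 u2 u3 σ x1 x2 x3 ∧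
    (∀ (σ' : ℝ) (y1 y2 y3 : ℝ × ℝ), Ins S u1 u2 u3 σ' y1 y2 y3 → σ' ≤ σ) ∧
    IsMax S u1 h1 ∧ IsMax S u2 h2 ∧ IsMax S u3 h3 ∧ g = σ * (h1 + h2 + h3)

theorem exists_isMax {S : Finset (ℝ × ℝ)} (hS : S.Nonempty) (u : ℝ × ℝ) : ∃ h, IsMax S u h := by
  obtain ⟨a, ha, hamax⟩ := S.exists_max_image (fun p => cr p u) hS
  exact ⟨cr a u, cr_le_of_mem_hull hamax, a, mem_P ha, rfl⟩

theorem exists_val {S : Finset (ℝ × ℝ)} (hint : (interior (P S)).Nonempty) (hS : S.Nonempty)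
    {u1 u2 u3 : ℝ × ℝ} (hsum : u1 + u2 + u3 = 0) (h3 : u3 ≠ 0) : ∃ g, Val S u1 u2 u3 g := by
  obtain ⟨σ, x1, x2, x3, hσ, hins, hmax⟩ := exists_max hint hsum h3
  obtain ⟨k1, hk1⟩ := exists_isMax hS u1
  obtain ⟨k2, hk2⟩ := exists_isMax hS u2
  obtain ⟨k3, hk3⟩ := exists_isMax hS u3
  exact ⟨_, σ, x1, x2, x3, k1, k2, k3, hσ, hins, hmax, hk1, hk2, hk3, rfl⟩

theorem pairing {S : Finset (ℝ × ℝ)} {u1 u2 u3 y1 y2 y3 d1 d2 d3 : ℝ × ℝ} {σ : ℝ}
    (hd : d1 + d2 + d3 = 0) (h : Ins S u1 u2 u3 σ y1 y2 y3) :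
    cr y1 d1 + cr y2 d2 + cr y3 d3 = σ * (cr u1 d2 + cr d1 u2) := by
  obtain ⟨-, -, -, e1, e2, -⟩ := h
  have hd3 : d3 = -d1 - d2 := by
    have : d3 = d1 + d2 + d3 - d1 - d2 := by abel
    rw [this, hd]; abel
  have e1' : y2 - y3 = σ • u1 := by
    have : y2 - y3 = -(y3 - y2) := by abel
    rw [this, e1, neg_neg]
  have h1 : cr (y1 - y3) d1 = - (σ * cr u2 d1) := by rw [e2, cr_neg_left, cr_smul_left]
  have h2 : cr (y2 - y3) d2 = σ * cr u1 d2 := by rw [e1', cr_smul_left]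
  rw [cr_sub_left] at h1 h2
  rw [hd3, cr_sub_right, cr_neg_right, cr_comm d1 u2]
  linarith

theorem sign_lemma {d1 d2 d3 w1 w2 w3 : ℝ × ℝ} (hd : d1 + d2 + d3 = 0) (hw : w1 + w2 + w3 = 0)
    (hA : 0 < cr d1 d2) (h1 : 0 ≤ cr d3 w1) (h2 : cr d2 w1 ≤ 0) (h3 : 0 ≤ cr d1 w2)
    (h4 : cr d3 w2 ≤ 0) (h5 : 0 ≤ cr d2 w3) (h6 : cr d1 w3 ≤ 0) : 0 ≤ cr w1 w2 := by
  have hd3 : d3 = -d1 - d2 := by
    have : d3 = d1 + d2 + d3 - d1 - d2 := by abel
    rw [this, hd]; abel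
  have hw3 : w3 = -w1 - w2 := by
    have : w3 = w1 + w2 + w3 - w1 - w2 := by abel
    rw [this, hw]; abel
  rw [hd3, cr_sub_left, cr_neg_left] at h1 h4
  rw [hw3, cr_sub_right, cr_neg_right] at h5 h6
  have id : cr d1 d2 * cr w1 w2 = cr d1 w1 * cr d2 w2 - cr d1 w2 * cr d2 w1 := by
    simp only [cr]; ring
  set a := cr d1 w1
  set b := cr d2 w1
  set c := cr d1 w2
  set e := cr d2 w2
  have key : 0 ≤ a * e - c * b := by
    have f1 : 0 ≤ (a + c) * (e + c) := mul_nonneg (by linarith) (by linarith)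
    have f2 : 0 ≤ (-b - a) * (-b - e) := mul_nonneg (by linarith) (by linarith)
    have f3 : 0 ≤ (-b) * ((a + c) * (e + c)) := mul_nonneg (by linarith) f1
    have f4 : 0 ≤ c * ((-b - a) * (-b - e)) := mul_nonneg h3 f2
    have f5 : 0 ≤ (c - b) * (a * e - c * b) := by nlinarith
    rcases (show 0 ≤ c - b by linarith).eq_or_lt with h0 | h0
    · have hc : c = 0 := by linarith
      have hb : b = 0 := by linarith
      have ha : a = 0 := by linarith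
      rw [ha, hb, hc]; simp
    · exact nonneg_of_mul_nonneg_right f5 h0
  rw [← id] at key
  exact nonneg_of_mul_nonneg_right key hA

/-- the statement which gives the orbit -/
theorem steps_of {S : Finset (ℝ × ℝ)} {d1 d2 d3 u1 u2 u3 x1 x2 x3 y1 y2 y3 : ℝ × ℝ} {σ σ' : ℝ}
    (hσ : 0 < σ) (hσ' : 0 < σ') (hdsum : d1 + d2 + d3 = 0) (husum : u1 + u2 + u3 = 0)
    (hA : 0 < cr d1 d2) (hB : 0 < cr u1 u2)
    (hx : Ins S d1 d2 d3 σ x1 x2 x3) (hy : Ins S u1 u2 u3 σ' y1 y2 y3)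
    (hu1 : ∀ p ∈ P S, cr p u1 ≤ cr x1 u1) (hu2 : ∀ p ∈ P S, cr p u2 ≤ cr x2 u2)
    (hu3 : ∀ p ∈ P S, cr p u3 ≤ cr x3 u3)
    (hd1 : ∀ p ∈ P S, cr p d1 ≤ cr y1 d1) (hd2 : ∀ p ∈ P S, cr p d2 ≤ cr y2 d2)
    (hd3 : ∀ p ∈ P S, cr p d3 ≤ cr y3 d3)
    (ex1 : x1 ∉ Set.extremePoints ℝ (P S)) (ex2 : x2 ∉ Set.extremePoints ℝ (P S))
    (ex3 : x3 ∉ Set.extremePoints ℝ (P S)) (ey1 : y1 ∉ Set.extremePoints ℝ (P S))
    (ey2 : y2 ∉ Set.extremePoints ℝ (P S)) (ey3 : y3 ∉ Set.extremePoints ℝ (P S)) :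
    Step S x1 y3 x2 ∧ Step S y3 x2 y1 ∧ Step S x2 y1 x3 ∧ Step S y1 x3 y2 ∧ Step S x3 y2 x1 ∧
      Step S y2 x1 y3 := by
  have hd3e : d3 = -d1 - d2 := by
    have : d3 = d1 + d2 + d3 - d1 - d2 := by abel
    rw [this, hdsum]; abel
  have hu3e : u3 = -u1 - u2 := by
    have : u3 = u1 + u2 + u3 - u1 - u2 := by abel
    rw [this, husum]; abel
  have A23 : cr d2 d3 = cr d1 d2 := by rw [hd3e]; simp only [cr, Prod.fst_sub, Prod.snd_sub, Prod.fst_neg, Prod.snd_neg]; ring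
  have A31 : cr d3 d1 = cr d1 d2 := by rw [hd3e]; simp only [cr, Prod.fst_sub, Prod.snd_sub, Prod.fst_neg, Prod.snd_neg]; ring
  have B23 : cr u2 u3 = cr u1 u2 := by rw [hu3e]; simp only [cr, Prod.fst_sub, Prod.snd_sub, Prod.fst_neg, Prod.snd_neg]; ring
  have B31 : cr u3 u1 = cr u1 u2 := by rw [hu3e]; simp only [cr, Prod.fst_sub, Prod.snd_sub, Prod.fst_neg, Prod.snd_neg]; ring
  have nd1 : d1 ≠ 0 := by rintro rfl; rw [cr_zero_left] at hA; exact lt_irrefl _ hA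
  have nd2 : d2 ≠ 0 := by rintro rfl; rw [cr_zero_right] at hA; exact lt_irrefl _ hA
  have nd3 : d3 ≠ 0 := by
    intro h; rw [h, cr_zero_right] at A23; rw [← A23] at hA; exact lt_irrefl _ hA
  have nu1 : u1 ≠ 0 := by rintro rfl; rw [cr_zero_left] at hB; exact lt_irrefl _ hB
  have nu2 : u2 ≠ 0 := by rintro rfl; rw [cr_zero_right] at hB; exact lt_irrefl _ hB
  have nu3 : u3 ≠ 0 := by
    intro h; rw [h, cr_zero_right] at B23; rw [← B23] at hB; exact lt_irrefl _ hB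
  obtain ⟨mx1, mx2, mx3, ax1, ax2, ax3⟩ := hx
  obtain ⟨my1, my2, my3, ay1, ay2, ay3⟩ := hy
  -- frontier
  have fx1 := mem_frontier_of_max mx1 nu1 hu1
  have fx2 := mem_frontier_of_max mx2 nu2 hu2
  have fx3 := mem_frontier_of_max mx3 nu3 hu3
  have fy1 := mem_frontier_of_max my1 nd1 hd1
  have fy2 := mem_frontier_of_max my2 nd2 hd2
  have fy3 := mem_frontier_of_max my3 nd3 hd3
  -- equal values
  have q1 : cr x3 d1 = cr x2 d1 := by
    have := congrArg (fun z => cr z d1) ax1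
    simp only [cr_sub_left, cr_neg_left, cr_smul_left, cr_self] at this; linarith
  have q2 : cr x1 d2 = cr x3 d2 := by
    have := congrArg (fun z => cr z d2) ax2
    simp only [cr_sub_left, cr_neg_left, cr_smul_left, cr_self] at this; linarith
  have q3 : cr x2 d3 = cr x1 d3 := by
    have := congrArg (fun z => cr z d3) ax3
    simp only [cr_sub_left, cr_neg_left, cr_smul_left, cr_self] at this; linarith
  have r1 : cr y3 u1 = cr y2 u1 := by
    have := congrArg (fun z => cr z u1) ay1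
    simp only [cr_sub_left, cr_neg_left, cr_smul_left, cr_self] at this; linarith
  have r2 : cr y1 u2 = cr y3 u2 := by
    have := congrArg (fun z => cr z u2) ay2
    simp only [cr_sub_left, cr_neg_left, cr_smul_left, cr_self] at this; linarith
  have r3 : cr y2 u3 = cr y1 u3 := by
    have := congrArg (fun z => cr z u3) ay3
    simp only [cr_sub_left, cr_neg_left, cr_smul_left, cr_self] at this; linarith
  -- strict inequalities
  have s3 : cr x1 d3 < cr y3 d3 := by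
    have := congrArg (fun z => cr z d3) ax2
    simp only [cr_sub_left, cr_neg_left, cr_smul_left] at this
    have h := hd3 x3 mx3
    rw [A23] at this
    nlinarith
  have s1 : cr x2 d1 < cr y1 d1 := by
    have := congrArg (fun z => cr z d1) ax3
    simp only [cr_sub_left, cr_neg_left, cr_smul_left] at this
    have h := hd1 x1 mx1
    rw [A31] at this
    nlinarith
  have s2 : cr x3 d2 < cr y2 d2 := by
    have := congrArg (fun z => cr z d2) ax1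
    simp only [cr_sub_left, cr_neg_left, cr_smul_left] at this
    have h := hd2 x2 mx2
    nlinarith
  have t3 : cr y1 u3 < cr x3 u3 := by
    have := congrArg (fun z => cr z u3) ay2
    simp only [cr_sub_left, cr_neg_left, cr_smul_left] at this
    have h := hu3 y3 my3
    rw [B23] at this
    nlinarith
  have t1 : cr y2 u1 < cr x1 u1 := by
    have := congrArg (fun z => cr z u1) ay3
    simp only [cr_sub_left, cr_neg_left, cr_smul_left] at this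
    have h := hu1 y1 my1
    rw [B31] at this
    nlinarith
  have t2 : cr y3 u2 < cr x2 u2 := by
    have := congrArg (fun z => cr z u2) ay1
    simp only [cr_sub_left, cr_neg_left, cr_smul_left] at this
    have h := hu2 y2 my2
    nlinarith
  have hB' : cr u1 u2 ≠ 0 := hB.ne'
  have hA' : cr d1 d2 ≠ 0 := hA.ne'
  have e23 : cr u2 u3 ≠ 0 := by rw [B23]; exact hB'
  have e31 : cr u3 u1 ≠ 0 := by rw [B31]; exact hB'
  have g23 : cr d2 d3 ≠ 0 := by rw [A23]; exact hA'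
  have g31 : cr d3 d1 ≠ 0 := by rw [A31]; exact hA'
  refine ⟨?_, ?_, ?_, ?_, ?_, ?_⟩
  · exact step_of fx1 ex1 nd3 (neg_ne_zero.mpr hσ.ne') (by rw [ax3, neg_smul]) hd3 s3
      (low mx1 mx2 ex1 ex2 hu1 hu2 hB' nd3 q3.symm)
  · exact step_of fy3 ey3 nu2 (neg_ne_zero.mpr hσ'.ne') (by rw [ay2, neg_smul]) hu2 t2
      (low my3 my1 ey3 ey1 hd3 hd1 g31 nu2 r2.symm)
  · exact step_of fx2 ex2 nd1 (neg_ne_zero.mpr hσ.ne') (by rw [ax1, neg_smul]) hd1 s1
      (low mx2 mx3 ex2 ex3 hu2 hu3 e23 nd1 q1.symm)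
  · exact step_of fy1 ey1 nu3 (neg_ne_zero.mpr hσ'.ne') (by rw [ay3, neg_smul]) hu3 t3
      (low my1 my2 ey1 ey2 hd1 hd2 hA' nu3 r3.symm)
  · exact step_of fx3 ex3 nd2 (neg_ne_zero.mpr hσ.ne') (by rw [ax2, neg_smul]) hd2 s2
      (low mx3 mx1 ex3 ex1 hu3 hu1 e31 nd2 q2.symm)
  · exact step_of fy2 ey2 nu1 (neg_ne_zero.mpr hσ'.ne') (by rw [ay1, neg_smul]) hu1 t1
      (low my2 my3 ey2 ey3 hd2 hd3 g23 nu1 r1.symm)

/-- the vertices of a reversed triangle in the frontier are not vertices of a generic polygon -/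
theorem not_extreme_of_generic {S : Finset (ℝ × ℝ)} (hS : S.Nonempty) (hgen : Generic S)
    {d1 d2 d3 x1 x2 x3 : ℝ × ℝ} {σ : ℝ} (hσ : 0 < σ) (hdsum : d1 + d2 + d3 = 0)
    (hA : 0 < cr d1 d2) (hx : Ins S d1 d2 d3 σ x1 x2 x3)
    (hs1 : IsSide S d1) (hs2 : IsSide S d2) (hs3 : IsSide S d3)
    (f1 : x1 ∈ frontier (P S)) (f2 : x2 ∈ frontier (P S)) (f3 : x3 ∈ frontier (P S)) :
    x1 ∉ Set.extremePoints ℝ (P S) ∧ x2 ∉ Set.extremePoints ℝ (P S) ∧
      x3 ∉ Set.extremePoints ℝ (P S) := by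
  have hd3e : d3 = -d1 - d2 := by
    have : d3 = d1 + d2 + d3 - d1 - d2 := by abel
    rw [this, hdsum]; abel
  have A23 : cr d2 d3 = cr d1 d2 := by rw [hd3e]; simp only [cr, Prod.fst_sub, Prod.snd_sub, Prod.fst_neg, Prod.snd_neg]; ring
  have A31 : cr d3 d1 = cr d1 d2 := by rw [hd3e]; simp only [cr, Prod.fst_sub, Prod.snd_sub, Prod.fst_neg, Prod.snd_neg]; ring
  obtain ⟨mx1, mx2, mx3, ax1, ax2, ax3⟩ := hx
  have b12 : x1 - x2 = σ • d3 := by
    have : x1 - x2 = -(x2 - x1) := by abel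
    rw [this, ax3, neg_neg]
  have b23 : x2 - x3 = σ • d1 := by
    have : x2 - x3 = -(x3 - x2) := by abel
    rw [this, ax1, neg_neg]
  have b31 : x3 - x1 = σ • d2 := by
    have : x3 - x1 = -(x1 - x3) := by abel
    rw [this, ax2, neg_neg]
  have hp := mul_pos hσ hA
  have c12 : ¬ Common S x1 x2 := by
    refine not_common hS hgen.1 mx1 mx2 mx3 hσ hs3 b12 ?_
    have := congrArg (fun z => cr z d3) b31
    simp only [cr_sub_left, cr_smul_left, A23] at this; linarith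
  have c23 : ¬ Common S x2 x3 := by
    refine not_common hS hgen.1 mx2 mx3 mx1 hσ hs1 b23 ?_
    have := congrArg (fun z => cr z d1) b12
    simp only [cr_sub_left, cr_smul_left, A31] at this; linarith
  have c31 : ¬ Common S x3 x1 := by
    refine not_common hS hgen.1 mx3 mx1 mx2 hσ hs2 b31 ?_
    have := congrArg (fun z => cr z d2) b23
    simp only [cr_sub_left, cr_smul_left] at this; linarith
  have t12 : IsSide S (x1 - x2) ∨ IsSide S (x2 - x1) := Or.inl (by rw [b12]; exact hs3.smul hσ)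
  have t23 : IsSide S (x2 - x3) ∨ IsSide S (x3 - x2) := Or.inl (by rw [b23]; exact hs1.smul hσ)
  have t31 : IsSide S (x3 - x1) ∨ IsSide S (x1 - x3) := Or.inl (by rw [b31]; exact hs2.smul hσ)
  exact ⟨hgen.2 x1 x2 x3 f1 f2 f3 t12 t23 t31 c12 c23 c31,
    hgen.2 x2 x3 x1 f2 f3 f1 t23 t31 t12 c23 c31 c12,
    hgen.2 x3 x1 x2 f3 f1 f2 t31 t12 t23 c31 c12 c23⟩

/-- all dual solutions are nondegenerate and positively oriented -/
theorem dual_pos {S : Finset (ℝ × ℝ)} (hint : (interior (P S)).Nonempty)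
    {d1 d2 d3 : ℝ × ℝ} (hdsum : d1 + d2 + d3 = 0) (hA : 0 < cr d1 d2)
    {σ h1 h2 h3 : ℝ} {x1 x2 x3 : ℝ × ℝ} (hσ : 0 < σ) (hins : Ins S d1 d2 d3 σ x1 x2 x3)
    (H1 : IsMax S d1 h1) (H2 : IsMax S d2 h2) (H3 : IsMax S d3 h3)
    (hpar : ∀ p a b : ℝ × ℝ, P S ⊆ Para p a b → σ * (h1 + h2 + h3) < |cr a b|)
    {w1 w2 w3 : ℝ × ℝ} (hwsum : w1 + w2 + w3 = 0) (hwne : w1 ≠ 0 ∨ w2 ≠ 0 ∨ w3 ≠ 0)
    (W1 : ∀ p ∈ P S, cr p w1 ≤ cr x1 w1) (W2 : ∀ p ∈ P S, cr p w2 ≤ cr x2 w2)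
    (W3 : ∀ p ∈ P S, cr p w3 ≤ cr x3 w3) : 0 < cr w1 w2 := by
  obtain ⟨mx1, mx2, mx3, ax1, ax2, ax3⟩ := id hins
  have b12 : x1 - x2 = σ • d3 := by
    have : x1 - x2 = -(x2 - x1) := by abel
    rw [this, ax3, neg_neg]
  have b23 : x2 - x3 = σ • d1 := by
    have : x2 - x3 = -(x3 - x2) := by abel
    rw [this, ax1, neg_neg]
  have b13 : x1 - x3 = (-σ) • d2 := by rw [ax2, neg_smul]
  have hw3e : w3 = -w1 - w2 := by
    have : w3 = w1 + w2 + w3 - w1 - w2 := by abel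
    rw [this, hwsum]; abel
  have hlow : ∀ p : ℝ × ℝ, cr p d1 + cr p d2 + cr p d3 = 0 := by
    intro p; rw [← cr_add_right, ← cr_add_right, hdsum, cr_zero_right]
  have low1 : ∀ p ∈ P S, -(h2 + h3) ≤ cr p d1 := by
    intro p hp; linarith [hlow p, H2.1 p hp, H3.1 p hp]
  have low2 : ∀ p ∈ P S, -(h1 + h3) ≤ cr p d2 := by
    intro p hp; linarith [hlow p, H1.1 p hp, H3.1 p hp]
  have low3 : ∀ p ∈ P S, -(h1 + h2) ≤ cr p d3 := by
    intro p hp; linarith [hlow p, H1.1 p hp, H2.1 p hp]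
  -- no two of the functionals are opposite
  have no12 : ∀ w : ℝ × ℝ, w ≠ 0 → (∀ p ∈ P S, cr p w ≤ cr x1 w) →
      ¬ (∀ p ∈ P S, cr x2 w ≤ cr p w) := by
    intro w hw hmx hmn
    obtain ⟨p0, a, b, hsub, harea⟩ := para_lemma hint hw mx1 hmx hmn b12 low3 H3.1
    have := hpar p0 a b hsub
    rw [harea, abs_of_pos hσ] at this
    nlinarith
  have no13 : ∀ w : ℝ × ℝ, w ≠ 0 → (∀ p ∈ P S, cr p w ≤ cr x1 w) →
      ¬ (∀ p ∈ P S, cr x3 w ≤ cr p w) := by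
    intro w hw hmx hmn
    obtain ⟨p0, a, b, hsub, harea⟩ := para_lemma hint hw mx1 hmx hmn b13 low2 H2.1
    have := hpar p0 a b hsub
    rw [harea, abs_neg, abs_of_pos hσ] at this
    nlinarith
  have no23 : ∀ w : ℝ × ℝ, w ≠ 0 → (∀ p ∈ P S, cr p w ≤ cr x2 w) →
      ¬ (∀ p ∈ P S, cr x3 w ≤ cr p w) := by
    intro w hw hmx hmn
    obtain ⟨p0, a, b, hsub, harea⟩ := para_lemma hint hw mx2 hmx hmn b23 low1 H1.1
    have := hpar p0 a b hsub
    rw [harea, abs_of_pos hσ] at this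
    nlinarith
  have hBne : cr w1 w2 ≠ 0 := by
    intro hB0
    by_cases hw1 : w1 = 0
    · have hw2 : w2 ≠ 0 := by
        intro hw2
        rw [hw1, hw2] at hw3e
        rcases hwne with h | h | h
        · exact h hw1
        · exact h hw2
        · exact h (by rw [hw3e]; simp)
      refine no23 w2 hw2 W2 ?_
      intro p hp
      have := W3 p hp
      rw [hw3e, hw1, cr_sub_right, cr_sub_right, cr_neg_right, cr_neg_right, cr_zero_right,
        cr_zero_right] at this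
      linarith
    · obtain ⟨α, hα⟩ := exists_smul_of_cr hw1 (by rw [cr_comm, hB0, neg_zero] : cr w2 w1 = 0)
      rcases lt_or_ge α 0 with hneg | hnn
      · refine no12 w1 hw1 W1 ?_
        intro p hp
        have := W2 p hp
        rw [hα, cr_smul_right, cr_smul_right] at this
        nlinarith
      · refine no13 w1 hw1 W1 ?_
        intro p hp
        have := W3 p hp
        rw [hw3e, hα] at this
        simp only [cr_sub_right, cr_neg_right, cr_smul_right] at this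
        nlinarith
  -- the orientation
  have hBnn : 0 ≤ cr w1 w2 := by
    have k1 := W1 x2 mx2
    have k1' := W1 x3 mx3
    have k2 := W2 x1 mx1
    have k2' := W2 x3 mx3
    have k3 := W3 x1 mx1
    have k3' := W3 x2 mx2
    have m12 : ∀ w, cr x1 w - cr x2 w = σ * cr d3 w := by
      intro w; rw [← cr_sub_left, b12, cr_smul_left]
    have m23 : ∀ w, cr x2 w - cr x3 w = σ * cr d1 w := by
      intro w; rw [← cr_sub_left, b23, cr_smul_left]
    have m13 : ∀ w, cr x1 w - cr x3 w = -σ * cr d2 w := by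
      intro w; rw [← cr_sub_left, b13, cr_smul_left]
    refine sign_lemma hdsum hwsum hA ?_ ?_ ?_ ?_ ?_ ?_
    · have := m12 w1; have h : 0 ≤ σ * cr d3 w1 := by linarith
      exact nonneg_of_mul_nonneg_right h hσ
    · have := m13 w1; have h : 0 ≤ σ * (- cr d2 w1) := by linarith
      linarith [nonneg_of_mul_nonneg_right h hσ]
    · have := m23 w2; have h : 0 ≤ σ * cr d1 w2 := by linarith
      exact nonneg_of_mul_nonneg_right h hσ
    · have := m12 w2; have h : 0 ≤ σ * (- cr d3 w2) := by linarith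
      linarith [nonneg_of_mul_nonneg_right h hσ]
    · have := m13 w3; have h : 0 ≤ σ * cr d2 w3 := by linarith
      exact nonneg_of_mul_nonneg_right h hσ
    · have := m23 w3; have h : 0 ≤ σ * (- cr d1 w3) := by linarith
      linarith [nonneg_of_mul_nonneg_right h hσ]
  exact lt_of_le_of_ne hBnn (Ne.symm hBne)

theorem core {S : Finset (ℝ × ℝ)} (hint : (interior (P S)).Nonempty) (hS : S.Nonempty)
    (hgen : Generic S) {d1 d2 d3 : ℝ × ℝ} (hdsum : d1 + d2 + d3 = 0) (hA : 0 < cr d1 d2)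
    (hs1 : IsSide S d1) (hs2 : IsSide S d2) (hs3 : IsSide S d3) {g : ℝ} (hval : Val S d1 d2 d3 g)
    (hpar : ∀ p a b : ℝ × ℝ, P S ⊆ Para p a b → g < |cr a b|)
    (hmin : ∀ u1 u2 u3 : ℝ × ℝ, u1 + u2 + u3 = 0 → 0 < cr u1 u2 → IsSide S u1 → IsSide S u2 →
      IsSide S u3 → ∃ (l g' : ℝ), 0 < l ∧ Val S (l • u1) (l • u2) (l • u3) g' ∧ g ≤ g') :
    ∃ x1 x2 x3 y1 y2 y3 : ℝ × ℝ,
    Step S x1 y3 x2 ∧ Step S y3 x2 y1 ∧ Step S x2 y1 x3 ∧ Step S y1 x3 y2 ∧ Step S x3 y2 x1 ∧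
      Step S y2 x1 y3 := by
  obtain ⟨σ, x1, x2, x3, h1, h2, h3, hσ, hins, hmax, H1, H2, H3, rfl⟩ := hval
  obtain ⟨w1, w2, w3, hwsum, hwne, W1, W2, W3⟩ := exists_dual hint hdsum hins hmax
  have hB : 0 < cr w1 w2 := dual_pos hint hdsum hA hσ hins H1 H2 H3 hpar hwsum hwne W1 W2 W3
  obtain ⟨mx1, mx2, mx3, ax1, ax2, ax3⟩ := id hins
  have hw3e : w3 = -w1 - w2 := by
    have : w3 = w1 + w2 + w3 - w1 - w2 := by abel
    rw [this, hwsum]; abel
  have B23 : cr w2 w3 = cr w1 w2 := by rw [hw3e]; simp only [cr, Prod.fst_sub, Prod.snd_sub, Prod.fst_neg, Prod.snd_neg]; ring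
  have nw1 : w1 ≠ 0 := by rintro rfl; rw [cr_zero_left] at hB; exact lt_irrefl _ hB
  have nw2 : w2 ≠ 0 := by rintro rfl; rw [cr_zero_right] at hB; exact lt_irrefl _ hB
  have nw3 : w3 ≠ 0 := by
    intro h; rw [h, cr_zero_right] at B23; rw [← B23] at hB; exact lt_irrefl _ hB
  have fx1 := mem_frontier_of_max mx1 nw1 W1
  have fx2 := mem_frontier_of_max mx2 nw2 W2
  have fx3 := mem_frontier_of_max mx3 nw3 W3
  obtain ⟨ex1, ex2, ex3⟩ := not_extreme_of_generic hS hgen hσ hdsum hA hins hs1 hs2 hs3 fx1 fx2 fx3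
  have sw1 := isSide_of_not_extreme hS nw1 mx1 W1 ex1
  have sw2 := isSide_of_not_extreme hS nw2 mx2 W2 ex2
  have sw3 := isSide_of_not_extreme hS nw3 mx3 W3 ex3
  obtain ⟨l, g', hl, hval', hgg⟩ := hmin w1 w2 w3 hwsum hB sw1 sw2 sw3
  obtain ⟨σ', y1, y2, y3, k1, k2, k3, hσ', hins', hmax', K1, K2, K3, rfl⟩ := hval'
  set u1 := l • w1 with hu1
  set u2 := l • w2 with hu2
  set u3 := l • w3 with hu3
  have husum : u1 + u2 + u3 = 0 := by rw [hu1, hu2, hu3, ← smul_add, ← smul_add, hwsum, smul_zero]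
  have U1 : ∀ p ∈ P S, cr p u1 ≤ cr x1 u1 := by
    intro p hp; rw [hu1, cr_smul_right, cr_smul_right]
    exact mul_le_mul_of_nonneg_left (W1 p hp) hl.le
  have U2 : ∀ p ∈ P S, cr p u2 ≤ cr x2 u2 := by
    intro p hp; rw [hu2, cr_smul_right, cr_smul_right]
    exact mul_le_mul_of_nonneg_left (W2 p hp) hl.le
  have U3 : ∀ p ∈ P S, cr p u3 ≤ cr x3 u3 := by
    intro p hp; rw [hu3, cr_smul_right, cr_smul_right]
    exact mul_le_mul_of_nonneg_left (W3 p hp) hl.le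
  have hBu : 0 < cr u1 u2 := by rw [hu1, hu2, cr_smul_left, cr_smul_right]; positivity
  have ek1 : k1 ≤ cr x1 u1 := by obtain ⟨p, hp, he⟩ := K1.2; rw [← he]; exact U1 p hp
  have ek2 : k2 ≤ cr x2 u2 := by obtain ⟨p, hp, he⟩ := K2.2; rw [← he]; exact U2 p hp
  have ek3 : k3 ≤ cr x3 u3 := by obtain ⟨p, hp, he⟩ := K3.2; rw [← he]; exact U3 p hp
  have pr1 := pairing husum hins
  have pr2 := pairing hdsum hins'
  have hle : h1 + h2 + h3 ≤ σ' * (cr u1 d2 + cr d1 u2) := by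
    have a1 : σ' * (k1 + k2 + k3) ≤ σ' * (σ * (cr d1 u2 + cr u1 d2)) := by
      apply mul_le_mul_of_nonneg_left _ hσ'.le
      rw [← pr1]; linarith
    have a2 : σ * (h1 + h2 + h3) ≤ σ * (σ' * (cr u1 d2 + cr d1 u2)) := by
      calc σ * (h1 + h2 + h3) ≤ σ' * (k1 + k2 + k3) := hgg
        _ ≤ σ' * (σ * (cr d1 u2 + cr u1 d2)) := a1
        _ = _ := by ring
    exact le_of_mul_le_mul_left a2 hσ
  rw [← pr2] at hle
  have v1 := H1.1 y1 hins'.1
  have v2 := H2.1 y2 hins'.2.1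
  have v3 := H3.1 y3 hins'.2.2.1
  have D1 : ∀ p ∈ P S, cr p d1 ≤ cr y1 d1 := fun p hp => by linarith [H1.1 p hp]
  have D2 : ∀ p ∈ P S, cr p d2 ≤ cr y2 d2 := fun p hp => by linarith [H2.1 p hp]
  have D3 : ∀ p ∈ P S, cr p d3 ≤ cr y3 d3 := fun p hp => by linarith [H3.1 p hp]
  have fy1 := mem_frontier_of_max hins'.1 hs1.1 D1
  have fy2 := mem_frontier_of_max hins'.2.1 hs2.1 D2
  have fy3 := mem_frontier_of_max hins'.2.2.1 hs3.1 D3
  obtain ⟨ey1, ey2, ey3⟩ := not_extreme_of_generic hS hgen hσ' husum hBu hins'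
    (sw1.smul hl) (sw2.smul hl) (sw3.smul hl) fy1 fy2 fy3
  exact ⟨x1, x2, x3, y1, y2, y3, steps_of hσ hσ' hdsum husum hA hBu hins hins' U1 U2 U3 D1 D2 D3
    ex1 ex2 ex3 ey1 ey2 ey3⟩

end Pool.Agent.H81.SymBil
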