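import Pool.Agent.H81.SymBil.Basic

set_option autoImplicit false

namespace Pool.Agent.H81.SymBil

/-- `x1, x2, x3` are points of the polygon and the vertices of a reversed copy of the triangle
with the edge vectors `d1, d2, d3`, scaled by `σ` -/
def Ins (S : Finset (ℝ × ℝ)) (d1 d2 d3 : ℝ × ℝ) (σ : ℝ) (x1 x2 x3 : ℝ × ℝ) : Prop :=
  x1 ∈ P S ∧ x2 ∈ P S ∧ x3 ∈ P S ∧ x3 - x2 = -(σ • d1) ∧ x1 - x3 = -(σ • d2) ∧
    x2 - x1 = -(σ • d3)

theorem exists_max {S : Finset (ℝ × ℝ)} (hint : (interior (P S)).Nonempty) {d1 d2 d3 : ℝ × ℝ}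
    (hsum : d1 + d2 + d3 = 0) (hd : d3 ≠ 0) :
    ∃ (σ : ℝ) (x1 x2 x3 : ℝ × ℝ), 0 < σ ∧ Ins S d1 d2 d3 σ x1 x2 x3 ∧
      ∀ (σ' : ℝ) (y1 y2 y3 : ℝ × ℝ), Ins S d1 d2 d3 σ' y1 y2 y3 → σ' ≤ σ := by
  classical
  have hd1 : d1 = -d2 - d3 := by
    have : d1 = d1 + d2 + d3 - d2 - d3 := by abel
    rw [this, hsum]; abel
  obtain ⟨c0, hc0⟩ := hint
  obtain ⟨R, hR⟩ := (isCompact_P S).isBounded.exists_norm_le
  have hnd : 0 < ‖d3‖ := norm_pos_iff.mpr hd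
  set B : Set (ℝ × (ℝ × ℝ)) :=
    {q | 0 ≤ q.1 ∧ q.2 ∈ P S ∧ q.2 - q.1 • d3 ∈ P S ∧ q.2 + q.1 • d2 ∈ P S} with hB
  have hBsub : B ⊆ Set.Icc 0 (2 * R / ‖d3‖) ×ˢ P S := by
    rintro ⟨τ, c⟩ ⟨h0, h1, h2, h3⟩
    refine ⟨⟨h0, ?_⟩, h1⟩
    rw [le_div_iff₀ hnd]
    have e1 := hR c h1
    have e2 := hR _ h2
    have e3 : ‖τ • d3‖ ≤ ‖c‖ + ‖c - τ • d3‖ := by
      have : τ • d3 = c - (c - τ • d3) := by abel
      calc ‖τ • d3‖ = ‖c - (c - τ • d3)‖ := by rw [← this]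
        _ ≤ _ := norm_sub_le _ _
    rw [norm_smul, Real.norm_eq_abs, abs_of_nonneg h0] at e3
    simp only at e2 ⊢
    linarith
  have hBclosed : IsClosed B := by
    have k1 : IsClosed {q : ℝ × (ℝ × ℝ) | 0 ≤ q.1} := isClosed_le continuous_const continuous_fst
    have k2 : IsClosed {q : ℝ × (ℝ × ℝ) | q.2 ∈ P S} := (isClosed_P S).preimage continuous_snd
    have k3 : IsClosed {q : ℝ × (ℝ × ℝ) | q.2 - q.1 • d3 ∈ P S} :=
      (isClosed_P S).preimage (by fun_prop)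
    have k4 : IsClosed {q : ℝ × (ℝ × ℝ) | q.2 + q.1 • d2 ∈ P S} :=
      (isClosed_P S).preimage (by fun_prop)
    exact k1.inter (k2.inter (k3.inter k4))
  have hBcomp : IsCompact B :=
    (isCompact_Icc.prod (isCompact_P S)).of_isClosed_subset hBclosed hBsub
  have hc0P : c0 ∈ P S := interior_subset hc0
  have hBne : B.Nonempty := ⟨(0, c0), by simp [hB, hc0P]⟩
  obtain ⟨⟨σ, c⟩, hmem, hmaxOn⟩ := hBcomp.exists_isMaxOn hBne (f := Prod.fst) continuousOn_fst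
  obtain ⟨hσ0, hc1, hc2, hc3⟩ := hmem
  simp only at hσ0 hc1 hc2 hc3
  -- positivity
  have hpos : 0 < σ := by
    have hcont2 : Continuous fun t : ℝ => c0 - t • d3 := by fun_prop
    have hcont3 : Continuous fun t : ℝ => c0 + t • d2 := by fun_prop
    have hn2 : ∀ᶠ t in nhds (0 : ℝ), c0 - t • d3 ∈ interior (P S) :=
      hcont2.continuousAt.eventually (isOpen_interior.mem_nhds (by simpa using hc0))
    have hn3 : ∀ᶠ t in nhds (0 : ℝ), c0 + t • d2 ∈ interior (P S) :=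
      hcont3.continuousAt.eventually (isOpen_interior.mem_nhds (by simpa using hc0))
    obtain ⟨ε, hε, hball⟩ := Metric.eventually_nhds_iff.mp (hn2.and hn3)
    have hm := hball (y := ε / 2) (by
      rw [Real.dist_eq, sub_zero, abs_of_pos (by positivity)]; linarith)
    have hmemB : ((ε / 2, c0) : ℝ × (ℝ × ℝ)) ∈ B :=
      ⟨by simp only; positivity, hc0P, interior_subset hm.1, interior_subset hm.2⟩
    have := hmaxOn hmemB
    simp only [Set.mem_ofPred_eq] at this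
    linarith
  refine ⟨σ, c, c - σ • d3, c + σ • d2, hpos, ⟨hc1, hc2, hc3, ?_, ?_, ?_⟩, ?_⟩
  · rw [hd1]; module
  · module
  · module
  · rintro σ' y1 y2 y3 ⟨h1, h2, h3, e1, e2, e3⟩
    by_cases hσ' : 0 ≤ σ'
    · have hmemB : ((σ', y1) : ℝ × (ℝ × ℝ)) ∈ B := by
        refine ⟨hσ', h1, ?_, ?_⟩
        · have : y1 - σ' • d3 = y2 := by
            have : y2 = (y2 - y1) + y1 := by abel
            rw [this, e3]; abel
          simp only [this]; exact h2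
        · have : y1 + σ' • d2 = y3 := by
            have : y3 = y1 - (y1 - y3) := by abel
            rw [this, e2]; abel
          simp only [this]; exact h3
      have := hmaxOn hmemB
      simpa using this
    · linarith

theorem exists_dual {S : Finset (ℝ × ℝ)} (hint : (interior (P S)).Nonempty) {d1 d2 d3 : ℝ × ℝ}
    (hsum : d1 + d2 + d3 = 0) {σ : ℝ} {x1 x2 x3 : ℝ × ℝ} (h : Ins S d1 d2 d3 σ x1 x2 x3)
    (hmax : ∀ (σ' : ℝ) (y1 y2 y3 : ℝ × ℝ), Ins S d1 d2 d3 σ' y1 y2 y3 → σ' ≤ σ) :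
    ∃ w1 w2 w3 : ℝ × ℝ, w1 + w2 + w3 = 0 ∧ (w1 ≠ 0 ∨ w2 ≠ 0 ∨ w3 ≠ 0) ∧
      (∀ p ∈ P S, cr p w1 ≤ cr x1 w1) ∧ (∀ p ∈ P S, cr p w2 ≤ cr x2 w2) ∧
      (∀ p ∈ P S, cr p w3 ≤ cr x3 w3) := by
  classical
  have hd1 : d1 = -d2 - d3 := by
    have : d1 = d1 + d2 + d3 - d2 - d3 := by abel
    rw [this, hsum]; abel
  obtain ⟨hx1, hx2, hx3, e1, e2, e3⟩ := h
  have hx2' : x2 = x1 - σ • d3 := by
    have : x2 = (x2 - x1) + x1 := by abel
    rw [this, e3]; abel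
  have hx3' : x3 = x1 + σ • d2 := by
    have : x3 = x1 - (x1 - x3) := by abel
    rw [this, e2]; abel
  set C : Set ((ℝ × ℝ) × ((ℝ × ℝ) × (ℝ × ℝ))) :=
    interior (P S) ×ˢ (interior (P S) ×ˢ interior (P S)) with hC
  set D : Set ((ℝ × ℝ) × ((ℝ × ℝ) × (ℝ × ℝ))) :=
    {q | ∃ (c : ℝ × ℝ) (τ : ℝ), σ ≤ τ ∧ q = (c, (c - τ • d3, c + τ • d2))} with hD
  have hCo : IsOpen C := isOpen_interior.prod (isOpen_interior.prod isOpen_interior)
  have hCc : Convex ℝ C :=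
    (convex_P S).interior.prod ((convex_P S).interior.prod (convex_P S).interior)
  have hDc : Convex ℝ D := by
    rintro _ ⟨c, τ, hτ, rfl⟩ _ ⟨c', τ', hτ', rfl⟩ a b ha hb hab
    refine ⟨a • c + b • c', a * τ + b * τ', ?_, ?_⟩
    · calc σ = a * σ + b * σ := by rw [← add_mul, hab, one_mul]
        _ ≤ _ := by gcongr
    · simp only [Prod.smul_mk, Prod.mk_add_mk]
      congr 2 <;> module
  have hdisj : Disjoint C D := by
    rw [Set.disjoint_left]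
    rintro q hq ⟨c, τ, hτ, rfl⟩
    obtain ⟨q1, q2, q3⟩ := hq
    simp only at q1 q2 q3
    have hcont2 : Continuous fun t : ℝ => c - (τ + t) • d3 := by fun_prop
    have hcont3 : Continuous fun t : ℝ => c + (τ + t) • d2 := by fun_prop
    have hn2 : ∀ᶠ t in nhds (0 : ℝ), c - (τ + t) • d3 ∈ interior (P S) :=
      hcont2.continuousAt.eventually (isOpen_interior.mem_nhds (by simpa using q2))
    have hn3 : ∀ᶠ t in nhds (0 : ℝ), c + (τ + t) • d2 ∈ interior (P S) :=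
      hcont3.continuousAt.eventually (isOpen_interior.mem_nhds (by simpa using q3))
    obtain ⟨ε, hε, hball⟩ := Metric.eventually_nhds_iff.mp (hn2.and hn3)
    have hm := hball (y := ε / 2) (by
      rw [Real.dist_eq, sub_zero, abs_of_pos (by positivity)]; linarith)
    have := hmax (τ + ε / 2) c (c - (τ + ε / 2) • d3) (c + (τ + ε / 2) • d2)
      ⟨interior_subset q1, interior_subset hm.1, interior_subset hm.2, by rw [hd1]; module,
        by module, by module⟩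
    linarith
  obtain ⟨f, u, hfC, hfD⟩ := geometric_hahn_banach_open hCc hCo hDc hdisj
  have hb0 : ((x1, (x2, x3)) : (ℝ × ℝ) × ((ℝ × ℝ) × (ℝ × ℝ))) ∈ D :=
    ⟨x1, σ, le_refl _, by rw [hx2', hx3']⟩
  -- on the closure
  have hcl : ∀ p1 ∈ P S, ∀ p2 ∈ P S, ∀ p3 ∈ P S, f (p1, (p2, p3)) ≤ u := by
    intro p1 h1 p2 h2 p3 h3
    have hclP : closure (interior (P S)) = P S := by
      rw [(convex_P S).closure_interior_eq_closure_of_nonempty_interior hint,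
        (isClosed_P S).closure_eq]
    have hmem : ((p1, (p2, p3)) : (ℝ × ℝ) × ((ℝ × ℝ) × (ℝ × ℝ))) ∈ closure C := by
      rw [hC, closure_prod_eq, closure_prod_eq, hclP]
      exact ⟨h1, h2, h3⟩
    have hclosed : IsClosed {q | f q ≤ u} := isClosed_le f.continuous continuous_const
    exact closure_minimal (fun q hq => (hfC q hq).le) hclosed hmem
  have hfb : u ≤ f (x1, (x2, x3)) := hfD _ hb0
  have htr : ∀ v : ℝ × ℝ, f (v, (v, v)) = 0 := by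
    intro v
    have key : ∀ t : ℝ, u ≤ f (x1, (x2, x3)) + t * f (v, (v, v)) := by
      intro t
      have hmem : ((x1 + t • v, (x2 + t • v, x3 + t • v)) :
          (ℝ × ℝ) × ((ℝ × ℝ) × (ℝ × ℝ))) ∈ D := by
        refine ⟨x1 + t • v, σ, le_refl _, ?_⟩
        rw [hx2', hx3']
        congr 2 <;> module
      have := hfD _ hmem
      have e : ((x1 + t • v, (x2 + t • v, x3 + t • v)) :
          (ℝ × ℝ) × ((ℝ × ℝ) × (ℝ × ℝ))) = (x1, (x2, x3)) + t • (v, (v, v)) := by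
        simp only [Prod.smul_mk, Prod.mk_add_mk]
      rw [e, map_add, map_smul, smul_eq_mul] at this
      exact this
    have hfu : f (x1, (x2, x3)) ≤ u := hcl x1 hx1 x2 hx2 x3 hx3
    by_contra hne
    have h1 := key (-1 / f (v, (v, v)))
    rw [div_mul_cancel₀ _ hne] at h1
    linarith
  have hdec : ∀ a b c : ℝ × ℝ, f (a, (b, c)) = f (a, (0, 0)) + f (0, (b, 0)) + f (0, (0, c)) := by
    intro a b c
    rw [← map_add, ← map_add]
    congr 1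
    simp
  have hrep : ∀ g : (ℝ × ℝ) →ₗ[ℝ] ℝ, ∀ p : ℝ × ℝ, cr p (-(g (0, 1)), g (1, 0)) = g p := by
    intro g p
    have : p = p.1 • ((1, 0) : ℝ × ℝ) + p.2 • ((0, 1) : ℝ × ℝ) := by
      ext <;> simp
    conv_rhs => rw [this]
    rw [map_add, map_smul, map_smul]
    simp only [cr, smul_eq_mul]; ring
  set g1 : (ℝ × ℝ) →ₗ[ℝ] ℝ := f.toLinearMap ∘ₗ LinearMap.inl ℝ (ℝ × ℝ) ((ℝ × ℝ) × (ℝ × ℝ))
    with hg1
  set g2 : (ℝ × ℝ) →ₗ[ℝ] ℝ := f.toLinearMap ∘ₗ LinearMap.inr ℝ (ℝ × ℝ) ((ℝ × ℝ) × (ℝ × ℝ)) ∘ₗ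
    LinearMap.inl ℝ (ℝ × ℝ) (ℝ × ℝ) with hg2
  set g3 : (ℝ × ℝ) →ₗ[ℝ] ℝ := f.toLinearMap ∘ₗ LinearMap.inr ℝ (ℝ × ℝ) ((ℝ × ℝ) × (ℝ × ℝ)) ∘ₗ
    LinearMap.inr ℝ (ℝ × ℝ) (ℝ × ℝ) with hg3
  have hg1' : ∀ p, g1 p = f (p, (0, 0)) := fun p => rfl
  have hg2' : ∀ p, g2 p = f (0, (p, 0)) := fun p => rfl
  have hg3' : ∀ p, g3 p = f (0, (0, p)) := fun p => rfl
  have hsumg : ∀ p, g1 p + g2 p + g3 p = 0 := by
    intro p; rw [hg1', hg2', hg3', ← hdec]; exact htr p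
  refine ⟨(-(g1 (0, 1)), g1 (1, 0)), (-(g2 (0, 1)), g2 (1, 0)), (-(g3 (0, 1)), g3 (1, 0)),
    ?_, ?_, ?_, ?_, ?_⟩
  · have a1 := hsumg (0, 1)
    have a2 := hsumg (1, 0)
    ext
    · simp only [Prod.fst_add, Prod.fst_zero]; linarith
    · simp only [Prod.snd_add, Prod.snd_zero]; linarith
  · by_contra hcon
    push Not at hcon
    obtain ⟨z1, z2, z3⟩ := hcon
    have v1 : ∀ p, g1 p = 0 := fun p => by rw [← hrep g1 p, z1, cr_zero_right]
    have v2 : ∀ p, g2 p = 0 := fun p => by rw [← hrep g2 p, z2, cr_zero_right]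
    have v3 : ∀ p, g3 p = 0 := fun p => by rw [← hrep g3 p, z3, cr_zero_right]
    obtain ⟨c0, hc0⟩ := hint
    have h1 := hfC (c0, (c0, c0)) ⟨hc0, hc0, hc0⟩
    rw [htr] at h1
    rw [hdec, ← hg1', ← hg2', ← hg3', v1, v2, v3] at hfb
    linarith
  · intro p hp
    rw [hrep, hrep]
    have h1 := hcl p hp x2 hx2 x3 hx3
    have h2 := h1.trans hfb
    rw [hdec p x2 x3, hdec x1 x2 x3] at h2
    rw [hg1', hg1']
    linarith
  · intro p hp
    rw [hrep, hrep]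
    have h1 := hcl x1 hx1 p hp x3 hx3
    have h2 := h1.trans hfb
    rw [hdec x1 p x3, hdec x1 x2 x3] at h2
    rw [hg2', hg2']
    linarith
  · intro p hp
    rw [hrep, hrep]
    have h1 := hcl x1 hx1 x2 hx2 p hp
    have h2 := h1.trans hfb
    rw [hdec x1 x2 p, hdec x1 x2 x3] at h2
    rw [hg3', hg3']
    linarith

end Pool.Agent.H81.SymBil
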